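import Pool.Agent.Q219.WD.Tr

/-!
# Two primes: purity and the traces on the kernels of the powers of `N`
-/

set_option autoImplicit false
set_option linter.unusedSectionVars false

open Polynomial

namespace Pool.Agent.Q219.WD

open Pool.Agent.Q187.IL
open Pool.Agent.Q226.IL (expN ev ev_X ev_C ev_comm wt Mixed MonodromyWeight Killed IsProjTo PureWt
  exists_proj N_wt killed_of_traces exists_section Quo trace_rho)

section single

variable {G K V : Type} [Group G] [TopologicalSpace G] [Field K] [CharZero K] [AddCommGroup V]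
  [Module K V] [FiniteDimensional K V] {p : ℕ} {I : Subgroup G} [I.Normal] {F : G} {t : G → K}
  {ρ r : Representation K G V} {N : Module.End K V}

/-- a power of Frobenius commutes with a given element of inertia -/
lemma Attached.exists_commute (h : Attached p I F t ρ r N) {g : G} (hg : g ∈ I) :
    ∃ k, 0 < k ∧ r F ^ k * r g = r g * r F ^ k := by
  have hfin : Finite (Quo I (MonoidHom.ker r)) := by
    have : Fintype (Quo I (MonoidHom.ker r)) := Subgroup.fintypeOfIndexNeZero h.finite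
    infer_instance
  have hc : ∀ m : ℕ, F ^ m * g * (F ^ m)⁻¹ ∈ I := fun m => ‹I.Normal›.conj_mem g hg _
  let f : ℕ → Quo I (MonoidHom.ker r) := fun m => QuotientGroup.mk ⟨F ^ m * g * (F ^ m)⁻¹, hc m⟩
  obtain ⟨a, b, hab, he⟩ : ∃ a b : ℕ, a < b ∧ f a = f b := by
    obtain ⟨a, b, hab, he⟩ := Finite.exists_ne_map_eq_of_infinite f
    rcases lt_or_gt_of_ne hab with h1 | h1
    · exact ⟨a, b, h1, he⟩
    · exact ⟨b, a, h1, he.symm⟩
  obtain ⟨k, rfl⟩ := Nat.exists_eq_add_of_lt hab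
  have h1 := Subgroup.mem_subgroupOf.1 (QuotientGroup.eq.1 he)
  have h2 : r ((F ^ a * g * (F ^ a)⁻¹)⁻¹ * (F ^ (a + k + 1) * g * (F ^ (a + k + 1))⁻¹)) = 1 :=
    MonoidHom.mem_ker.1 h1
  have e : F ^ (a + k + 1) * g * (F ^ (a + k + 1))⁻¹ =
      F ^ a * g * (F ^ a)⁻¹ * ((F ^ a * g * (F ^ a)⁻¹)⁻¹ *
        (F ^ (a + k + 1) * g * (F ^ (a + k + 1))⁻¹)) := by group
  have h3 : r (F ^ (a + k + 1) * g * (F ^ (a + k + 1))⁻¹) = r (F ^ a * g * (F ^ a)⁻¹) := by
    rw [e, map_mul, h2, mul_one]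
  refine ⟨k + 1, Nat.succ_pos k, ?_⟩
  have h4 : F ^ (k + 1) * g = (F ^ a)⁻¹ * (F ^ (a + k + 1) * g * (F ^ (a + k + 1))⁻¹) * F ^ a *
      F ^ (k + 1) := by
    rw [add_assoc, pow_add]
    group
  rw [← map_pow, ← map_mul, h4, map_mul, map_mul, map_mul, h3, ← map_mul, ← map_mul, ← map_mul,
    ← map_mul]
  congr 1
  group

lemma Attached.stable_wt (h : Attached p I F t ρ r N) (n : ℕ) {g : G} (hg : g ∈ I) (q : ℕ) :
    ∀ a, ∀ v ∈ wt q (r F) a, r (F ^ n * g) v ∈ wt q (r F) a := by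
  intro a v hv
  obtain ⟨k, hk, hk'⟩ := h.exists_commute hg
  rw [map_mul, map_pow, Module.End.mul_apply]
  refine wt_stable (k := 1) one_pos ?_ a _ (wt_stable hk hk' a v hv)
  rw [pow_one, ← pow_succ, ← pow_succ']

lemma Attached.trace_eq (hp : 2 ≤ p) (h : Attached p I F t ρ r N) (ht : IsTame I t) (n : ℕ) {g : G}
    (hg : g ∈ I) : LinearMap.trace K V (ρ (F ^ (n + 1) * g)) =
      LinearMap.trace K V (r (F ^ (n + 1) * g)) := by
  have := trace_rho hp (h.isWD ht) (c := 1) (fun g => by rw [one_mul, mul_one]) (Nat.succ_pos n) hg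
  rwa [one_mul, one_mul, ← map_pow, ← map_mul] at this

lemma trace_mul_ev {A Φ : Module.End K V} {τ : ℕ → ℚ}
    (h : ∀ m, LinearMap.trace K V (A * Φ ^ m) = algebraMap ℚ K (τ m)) (P : ℚ[X]) :
    LinearMap.trace K V (A * ev Φ P) = algebraMap ℚ K (P.sum fun m a => a * τ m) := by
  induction P using Polynomial.induction_on' with
  | add P Q hP hQ =>
    rw [map_add, mul_add, map_add, hP, hQ, ← map_add, Polynomial.sum_add_index]
    · intro i
      rw [zero_mul]
    · intro i a b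
      rw [add_mul]
  | monomial n a =>
    rw [Polynomial.sum_monomial_index a (fun m a => a * τ m) (zero_mul _),
      ← C_mul_X_pow_eq_monomial, map_mul (ev Φ), map_pow (ev Φ), ev_X, ev_C, smul_mul_assoc,
      one_mul, mul_smul_comm, map_smul, h, map_mul, smul_eq_mul]

lemma shift (F : G) (n m : ℕ) {g : G} (hg : g ∈ I) : ∃ g' ∈ I,
    F ^ (n + 1) * g * F ^ m = F ^ (n + m + 1) * g' := by
  refine ⟨(F ^ m)⁻¹ * g * F ^ m, ?_, ?_⟩
  · have := ‹I.Normal›.conj_mem g hg (F ^ m)⁻¹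
    rwa [inv_inv] at this
  · have e : n + m + 1 = n + 1 + m := by ring
    rw [e, pow_add F (n + 1) m]
    group

end single

section two

variable {G K V K' V' : Type} [Group G] [TopologicalSpace G] [Field K] [CharZero K]
  [AddCommGroup V] [Module K V] [FiniteDimensional K V] [Field K'] [CharZero K']
  [AddCommGroup V'] [Module K' V'] [FiniteDimensional K' V'] {p : ℕ} {I : Subgroup G} [I.Normal]
  {F : G} {t : G → K} {t' : G → K'} {ρ r : Representation K G V} {N : Module.End K V}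
  {ρ' r' : Representation K' G V'} {N' : Module.End K' V'}

/-- **Purity for two primes.** -/
theorem traces_of_pure (hp : 2 ≤ p) (ht : IsTame I t) (ht' : IsTame I t')
    (h : Attached p I F t ρ r N) (h' : Attached p I F t' ρ' r' N') {w : ℤ}
    (hmix : Mixed p (r F)) (hM : MonodromyWeight p w (r F) N)
    (hM' : MonodromyWeight p w (r' F) N')
    (hτ : ∀ n : ℕ, ∀ g ∈ I, ∃ q : ℚ,
      LinearMap.trace K V (ρ (F ^ (n + 1) * g)) = algebraMap ℚ K q ∧
      LinearMap.trace K' V' (ρ' (F ^ (n + 1) * g)) = algebraMap ℚ K' q)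
    (j n : ℕ) {g : G} (hg : g ∈ I) : ∃ q : ℚ,
      trOn (r (F ^ (n + 1) * g)) (LinearMap.ker (N ^ j)) = algebraMap ℚ K q ∧
      trOn (r' (F ^ (n + 1) * g)) (LinearMap.ker (N' ^ j)) = algebraMap ℚ K' q := by
  have hτ1 : ∀ n : ℕ, ∀ g ∈ I, ∃ q : ℚ,
      LinearMap.trace K V (r (F ^ (n + 1) * g)) = algebraMap ℚ K q ∧
      LinearMap.trace K' V' (r' (F ^ (n + 1) * g)) = algebraMap ℚ K' q := by
    intro n g hg
    obtain ⟨q, h1, h2⟩ := hτ n g hg
    exact ⟨q, by rw [← h.trace_eq hp ht n hg, h1], by rw [← h'.trace_eq hp ht' n hg, h2]⟩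
  have hu' : IsUnit (r' F) := by
    refine isUnit_iff_exists.2 ⟨r' F⁻¹, ?_, ?_⟩
    · rw [← map_mul, mul_inv_cancel, map_one]
    · rw [← map_mul, inv_mul_cancel, map_one]
  have hF : ∀ m : ℕ, ∃ q : ℚ, LinearMap.trace K V (r F ^ (m + 1)) = algebraMap ℚ K q ∧
      LinearMap.trace K' V' (r' F ^ (m + 1)) = algebraMap ℚ K' q := by
    intro m
    obtain ⟨q, h1, h2⟩ := hτ1 m 1 I.one_mem
    rw [mul_one, map_pow] at h1 h2
    exact ⟨q, h1, h2⟩
  choose τ₀ hτ₀ hτ₀' using hF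
  obtain ⟨S, f, hK, hK'⟩ := killed_of_traces hu' hτ₀ hτ₀' hmix
  obtain ⟨P, hP⟩ := exists_proj hp S f hK.pure (w + j - 1)
  obtain ⟨P', hP'⟩ := exists_proj hp S f hK.pure (w - j - 1)
  have hA : ∀ m : ℕ, ∃ q : ℚ,
      LinearMap.trace K V (r (F ^ (n + 1) * g) * r F ^ m) = algebraMap ℚ K q ∧
      LinearMap.trace K' V' (r' (F ^ (n + 1) * g) * r' F ^ m) = algebraMap ℚ K' q := by
    intro m
    obtain ⟨g', hg', e⟩ := shift F n m hg
    obtain ⟨q, h1, h2⟩ := hτ1 (n + m) g' hg'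
    refine ⟨q, ?_, ?_⟩
    · rw [← map_pow, ← map_mul, e, h1]
    · rw [← map_pow, ← map_mul, e, h2]
  choose τ hτ2 hτ2' using hA
  refine ⟨(P.sum fun m a => a * τ m) - ((p : ℚ) ^ (n + 1)) ^ j * (P'.sum fun m a => a * τ m),
    ?_, ?_⟩
  · rw [trace_ker_pow hp hK h.frob hM j (hP K V (r F) hK) (hP' K V (r F) hK) (h.comm (n + 1) hg)
      (h.stable_wt (n + 1) hg p), trace_mul_ev hτ2, trace_mul_ev hτ2, map_sub, map_mul, map_pow,
      map_pow, map_natCast]
  · rw [trace_ker_pow hp hK' h'.frob hM' j (hP K' V' (r' F) hK') (hP' K' V' (r' F) hK')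
      (h'.comm (n + 1) hg) (h'.stable_wt (n + 1) hg p), trace_mul_ev hτ2', trace_mul_ev hτ2',
      map_sub, map_mul, map_pow, map_pow, map_natCast]

end two

end Pool.Agent.Q219.WD
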