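import Pool.Agent.Q187.IL.Main
import Pool.Agent.Q226.IL.WD
import Pool.Agent.Q226.IL.Wt

/-!
# Local Euler factors and Weil-Deligne representations: definitions
-/

set_option autoImplicit false

open Polynomial TensorProduct

namespace Pool.Agent.Q219.WD

open Pool.Agent.Q187.IL (revPoly Data Curve IsTensorOf)
open Pool.Agent.Q226.IL (expN Mixed MonodromyWeight)

/-- `G` is the Weil group at `p`, with inertia group `I` and geometric Frobenius element `F`: the
subgroup `I` is open and every element of `G` is `F ^ n g` with `g ∈ I` and a unique integer `n`. -/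
structure IsWeilGroup {G : Type} [Group G] [TopologicalSpace G] (I : Subgroup G) (F : G) :
    Prop where
  isOpen : IsOpen (I : Set G)
  gen : ∀ x : G, ∃ n : ℤ, ∃ g ∈ I, x = F ^ n * g
  free : ∀ n : ℤ, F ^ n ∈ I → n = 0

/-- `t` is a non-trivial homomorphism from `I` to the additive group of `K` (the character
`t_ℓ : I → ℚ_ℓ` given by the tame `ℓ`-adic quotient of the inertia group). -/
structure IsTame {G K : Type} [Group G] [Field K] (I : Subgroup G) (t : G → K) : Prop where
  add : ∀ g ∈ I, ∀ h ∈ I, t (g * h) = t g + t h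
  ne : ∃ g ∈ I, t g ≠ 0

/-- The pair `(r, N)` is the Weil-Deligne representation attached to the `ℓ`-adic representation `ρ`
of the Weil group (Grothendieck, Deligne): `N` is nilpotent, `r` is a representation with open
kernel, of finite index in the inertia group, `N r(g) = r(g) N` for `g ∈ I`, `N r(F) = p r(F) N`, and
`ρ(F ^ n g) = r(F ^ n g) exp (t(g) N)` for all integers `n` and all `g ∈ I`. -/
structure Attached {G K V : Type} [Group G] [TopologicalSpace G] [Field K] [AddCommGroup V]
    [Module K V] (p : ℕ) (I : Subgroup G) (F : G) (t : G → K) (ρ r : Representation K G V)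
    (N : Module.End K V) : Prop where
  nilpotent : IsNilpotent N
  isOpen : IsOpen ((MonoidHom.ker r : Subgroup G) : Set G)
  finite : (MonoidHom.ker r).relIndex I ≠ 0
  inertia : ∀ g ∈ I, N * r g = r g * N
  frob : N * r F = (p : K) • (r F * N)
  exp : ∀ n : ℤ, ∀ g ∈ I, ρ (F ^ n * g) = r (F ^ n * g) * expN N (t g)

/-- `ρ'` is the tensor product of `ρ` and the permutation representation on `G / H`: the functions on
`G / H` with values in the space of `ρ`. -/
def IsInduced {G K V V' : Type} [Group G] [Field K] [AddCommGroup V] [Module K V]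
    [AddCommGroup V'] [Module K V'] (H : Subgroup G) (ρ' : Representation K G V')
    (ρ : Representation K G V) : Prop :=
  ∃ e : V' ≃ₗ[K] (G ⧸ H → V), ∀ (g : G) (v : V') (x : G ⧸ H),
    e (ρ' g v) x = ρ g (e v (g⁻¹ • x))

/-- Tensor products with the motives `h(Spec F)` of number fields `F` for which `F ⊗ ℚ_p` is a field
(the finite extension of `ℚ_p` with Weil group `H`) exist. -/
def HasArtin (D : Data) [TopologicalSpace D.G] : Prop :=
  ∀ H : Subgroup D.G, IsOpen (H : Set D.G) → H.FiniteIndex → ∀ M : D.Mot, ∃ M' : D.Mot,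
    ∀ l i, IsInduced H (D.rho l M' i) (D.rho l M i)

/-- `Twist E M i M' i'`: the motive `M'` and the degree `i'` are obtained from `M` and `i` by
finitely many operations of two kinds: tensor products with `h^1(E)` (the degree increases by one) and
tensor products with `h(Spec F)`, `F` a number field with only one place above `p`. -/
inductive Twist {D : Data} [TopologicalSpace D.G] (E : Curve D) (M : D.Mot) (i : ℤ) :
    D.Mot → ℤ → Prop
  | refl : Twist E M i M i
  | tensor {M₁ M₂ : D.Mot} {i₁ : ℤ} : Twist E M i M₁ i₁ →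
      (∀ l, IsTensorOf (D.rho l M₂ (i₁ + 1)) (D.rho l M₁ i₁) (E.s l)) → Twist E M i M₂ (i₁ + 1)
  | artin {M₁ M₂ : D.Mot} {i₁ : ℤ} (H : Subgroup D.G) : Twist E M i M₁ i₁ →
      IsOpen (H : Set D.G) → H.FiniteIndex →
      (∀ l, IsInduced H (D.rho l M₂ i₁) (D.rho l M₁ i₁)) → Twist E M i M₂ i₁

/-- Grothendieck's monodromy theorem for all realisations. -/
def HasMonodromy (D : Data) [TopologicalSpace D.G] (p : ℕ) (t : ∀ l, D.G → D.K l) : Prop :=
  ∀ l M i, ∃ (r : Representation (D.K l) D.G (D.V l M i)) (N : Module.End (D.K l) (D.V l M i)),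
    Attached p D.I D.F (t l) (D.rho l M i) r N

/-- `W` has a basis `b₀, b₁` on which `F` acts by `1` and `p`, and an element `g` of inertia by
`b₀ ↦ b₀`, `b₁ ↦ b₁ + t(g) b₀`. -/
def IsTate {G K W : Type} [Group G] [Field K] [AddCommGroup W] [Module K W] (p : ℕ)
    (I : Subgroup G) (F : G) (t : G → K) (s : Representation K G W) : Prop :=
  ∃ b : Module.Basis (Fin 2) K W, s F (b 0) = b 0 ∧ s F (b 1) = (p : K) • b 1 ∧
    ∀ g ∈ I, s g (b 0) = b 0 ∧ s g (b 1) = b 1 + t g • b 0

/-- The elliptic curve `E` has split multiplicative reduction at `p`. -/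
def IsSplitMult {D : Data} (E : Curve D) (p : ℕ) (t : ∀ l, D.G → D.K l) : Prop :=
  ∀ l, IsTate p D.I D.F (t l) (E.s l)

/-- The known facts which are used. -/
structure Facts (D : Data) [TopologicalSpace D.G] (p : ℕ) (t : ∀ l, D.G → D.K l) (E : Curve D) :
    Prop where
  weil : IsWeilGroup D.I D.F
  tame : ∀ l, IsTame D.I (t l)
  monodromy : HasMonodromy D p t
  artin : HasArtin D
  split : IsSplitMult E p t
  tensor : E.HasTensor

/-- The weight-monodromy conjecture for `ρ`: there is a Weil-Deligne representation `(r, N)` attached to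
`ρ`, the eigenvalues of `r(F)` are Weil numbers, and for all `k ≥ 0` the map `N ^ k` is a bijection of the
part of weight `w + k` onto the part of weight `w - k`. -/
def PureRep {G K V : Type} [Group G] [TopologicalSpace G] [Field K] [CharZero K] [AddCommGroup V]
    [Module K V] (p : ℕ) (w : ℤ) (I : Subgroup G) (F : G) (t : G → K) (ρ : Representation K G V) :
    Prop :=
  ∃ (r : Representation K G V) (N : Module.End K V), Attached p I F t ρ r N ∧
    Mixed p (r F) ∧ MonodromyWeight p w (r F) N

/-- The weight-monodromy conjecture with weight `w` for `V^i_ℓ(M)`. -/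
def WM (D : Data) [TopologicalSpace D.G] (p : ℕ) (t : ∀ l, D.G → D.K l) (w : ℤ) (l : D.Pr)
    (M : D.Mot) (i : ℤ) : Prop :=
  PureRep p w D.I D.F (t l) (D.rho l M i)

/-- The traces of the elements of positive degree of the Weil group on the two representations are
equal rational numbers. -/
def TrEq {G K K' V V' : Type} [Group G] [Field K] [CharZero K] [AddCommGroup V] [Module K V]
    [Field K'] [CharZero K'] [AddCommGroup V'] [Module K' V'] (I : Subgroup G) (F : G)
    (ρ : Representation K G V) (ρ' : Representation K' G V') : Prop :=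
  ∀ n : ℕ, ∀ g ∈ I, ∃ q : ℚ, LinearMap.trace K V (ρ (F ^ (n + 1) * g)) = algebraMap ℚ K q ∧
    LinearMap.trace K' V' (ρ' (F ^ (n + 1) * g)) = algebraMap ℚ K' q

/-- The traces of the elements of positive degree of the Weil group on `V^i_ℓ(M)` and `V^i_ℓ'(M)` are
equal rational numbers. -/
def SameTraces (D : Data) (l l' : D.Pr) (M : D.Mot) (i : ℤ) : Prop :=
  TrEq D.I D.F (D.rho l M i) (D.rho l' M i)

/-- The polynomials `P^i_{p,ℓ}(M,T)` and `P^i_{p,ℓ'}(M,T)` have rational coefficients and are
equal. -/
def SameFactor (D : Data) (l l' : D.Pr) (M : D.Mot) (i : ℤ) : Prop :=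
  ∃ P : ℚ[X], D.factor l M i = P.map (algebraMap ℚ (D.K l)) ∧
    D.factor l' M i = P.map (algebraMap ℚ (D.K l'))

end Pool.Agent.Q219.WD
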