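import Pool.Agent.Q219.WD.Main

/-!
# From the elements of positive degree to the whole Weil group
-/

set_option autoImplicit false
set_option linter.unusedSectionVars false

open Polynomial

namespace Pool.Agent.Q219.WD

open Pool.Agent.Q187.IL
open Pool.Agent.Q226.IL (expN Quo)

section single

variable {G K V : Type} [Group G] [TopologicalSpace G] [Field K] [CharZero K] [AddCommGroup V]
  [Module K V] [FiniteDimensional K V] {p : ℕ} {I J : Subgroup G} {F : G} {t : G → K}
  {ρ r : Representation K G V} {N : Module.End K V}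

lemma stable_of_comm {A N : Module.End K V} {c : K} (h : N * A = c • (A * N)) (j : ℕ) :
    ∀ v ∈ LinearMap.ker (N ^ j), A v ∈ LinearMap.ker (N ^ j) := by
  have hpow : N ^ j * A = (c ^ j) • (A * N ^ j) := by
    induction j with
    | zero => simp
    | succ j ih =>
      rw [pow_succ', mul_assoc, ih, mul_smul_comm, ← mul_assoc, h, smul_mul_assoc, smul_smul,
        mul_assoc, ← pow_succ]
  intro v hv
  rw [LinearMap.mem_ker] at hv ⊢
  rw [← Module.End.mul_apply, hpow, LinearMap.smul_apply, Module.End.mul_apply, hv, map_zero,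
    smul_zero]

lemma Attached.comm_all (h : Attached p I F t ρ r N) (hp : p ≠ 0) (hG : IsWeilGroup I F)
    (a : G) : ∃ c : K, c ≠ 0 ∧ N * r a = c • (r a * N) := by
  let S : Subgroup G :=
    { carrier := {a | ∃ c : K, c ≠ 0 ∧ N * r a = c • (r a * N)}
      mul_mem' := by
        rintro a b ⟨c, hc, h1⟩ ⟨d, hd, h2⟩
        refine ⟨c * d, mul_ne_zero hc hd, ?_⟩
        rw [map_mul, ← mul_assoc, h1, smul_mul_assoc, mul_assoc, h2, mul_smul_comm, smul_smul,
          mul_assoc]
      one_mem' := ⟨1, one_ne_zero, by rw [map_one, one_smul, one_mul, mul_one]⟩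
      inv_mem' := by
        rintro a ⟨c, hc, h1⟩
        have e1 : r a⁻¹ * r a = 1 := by rw [← map_mul, inv_mul_cancel, map_one]
        have e2 : r a * r a⁻¹ = 1 := by rw [← map_mul, mul_inv_cancel, map_one]
        refine ⟨c⁻¹, inv_ne_zero hc, ?_⟩
        have e3 : r a⁻¹ * (N * r a) * r a⁻¹ = c • (N * r a⁻¹) := by
          rw [h1, mul_smul_comm, ← mul_assoc, e1, one_mul, smul_mul_assoc]
        have e4 : r a⁻¹ * (N * r a) * r a⁻¹ = r a⁻¹ * N := by
          rw [mul_assoc, mul_assoc N, e2, mul_one]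
        rw [← e4, e3, smul_smul, inv_mul_cancel₀ hc, one_smul] }
  have hI : ∀ g ∈ I, g ∈ S := fun g hg => ⟨1, one_ne_zero, by rw [one_smul, h.inertia g hg]⟩
  have hF : F ∈ S := ⟨(p : K), by exact_mod_cast hp, h.frob⟩
  obtain ⟨n, g, hg, rfl⟩ := hG.gen a
  exact S.mul_mem (S.zpow_mem hF n) (hI g hg)

lemma Attached.stable_all (h : Attached p I F t ρ r N) (hp : p ≠ 0) (hG : IsWeilGroup I F)
    (a : G) (j : ℕ) : ∀ v ∈ LinearMap.ker (N ^ j), r a v ∈ LinearMap.ker (N ^ j) := by
  obtain ⟨c, -, h1⟩ := h.comm_all hp hG a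
  exact stable_of_comm h1 j

end single

section poly

variable {K U : Type} [Field K] [CharZero K] [AddCommGroup U] [Module K U] [FiniteDimensional K U]

lemma rev_data {f : Module.End K U} (hf : Function.Injective f) {P : ℚ[X]}
    (hP : revPoly f = P.map (algebraMap ℚ K)) : Module.finrank K U = P.natDegree ∧
      ∀ k ≤ P.natDegree, f.charpoly.coeff k = algebraMap ℚ K (P.coeff (P.natDegree - k)) := by
  have h0 : f.charpoly.coeff 0 ≠ 0 := by
    intro h
    have h1 := LinearMap.det_eq_sign_charpoly_coeff f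
    rw [h, mul_zero] at h1
    have h2 : IsUnit f := (LinearMap.isUnit_iff_ker_eq_bot f).2 (LinearMap.ker_eq_bot.2 hf)
    have h3 := (LinearMap.isUnit_iff_isUnit_det f).1 h2
    rw [h1] at h3
    exact not_isUnit_zero h3
  have h1 : P.natDegree = Module.finrank K U := by
    have h2 : (revPoly f).natDegree = Module.finrank K U := by
      rw [revPoly, Polynomial.reverse_natDegree, LinearMap.charpoly_natDegree,
        Polynomial.natTrailingDegree_eq_zero.2 (Or.inr h0), Nat.sub_zero]
    rw [← h2, hP, Polynomial.natDegree_map]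
  refine ⟨h1.symm, fun k hk => ?_⟩
  rw [← Polynomial.coeff_map, ← hP, revPoly, Polynomial.coeff_reverse,
    LinearMap.charpoly_natDegree, ← h1, Polynomial.revAt_le (Nat.sub_le _ _)]
  congr 1
  omega

/-- the linear recurrence for the traces `Tr (A B ^ k)` -/
lemma recurrence (A : Module.End K U) {B : Module.End K U} (hB : Function.Injective B) {P : ℚ[X]}
    (hP : revPoly B = P.map (algebraMap ℚ K)) :
    ∑ k ∈ Finset.range (P.natDegree + 1), algebraMap ℚ K (P.coeff (P.natDegree - k)) *
      LinearMap.trace K U (A * B ^ k) = 0 := by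
  obtain ⟨h1, h2⟩ := rev_data hB hP
  have h3 := LinearMap.aeval_self_charpoly B
  rw [Polynomial.aeval_eq_sum_range, LinearMap.charpoly_natDegree, h1] at h3
  have h4 := congrArg (fun C : Module.End K U => LinearMap.trace K U (A * C)) h3
  simp only [mul_zero, map_zero] at h4
  rw [Finset.mul_sum, map_sum] at h4
  rw [← h4]
  refine Finset.sum_congr rfl fun k hk => ?_
  rw [mul_smul_comm, map_smul, smul_eq_mul, h2 k (by rw [Finset.mem_range] at hk; omega)]

/-- backward extension of a linear recurrence, for two fields at once -/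
lemma backward {K' : Type} [Field K'] [CharZero K'] {P : ℚ[X]} (hP : P ≠ 0) (f : ℤ → K)
    (f' : ℤ → K')
    (h : ∀ s, ∑ k ∈ Finset.range (P.natDegree + 1),
      algebraMap ℚ K (P.coeff (P.natDegree - k)) * f (s + k) = 0)
    (h' : ∀ s, ∑ k ∈ Finset.range (P.natDegree + 1),
      algebraMap ℚ K' (P.coeff (P.natDegree - k)) * f' (s + k) = 0) (s₀ : ℤ)
    (hs : ∀ s, s₀ ≤ s → ∃ q : ℚ, f s = algebraMap ℚ K q ∧ f' s = algebraMap ℚ K' q) :
    ∀ s, ∃ q : ℚ, f s = algebraMap ℚ K q ∧ f' s = algebraMap ℚ K' q := by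
  have hlc : P.coeff P.natDegree ≠ 0 := Polynomial.leadingCoeff_ne_zero.2 hP
  have key : ∀ n : ℕ, ∀ s, s₀ - n ≤ s →
      ∃ q : ℚ, f s = algebraMap ℚ K q ∧ f' s = algebraMap ℚ K' q := by
    intro n
    induction n with
    | zero => intro s hs'; exact hs s (by simpa using hs')
    | succ n ih =>
      intro s hs'
      by_cases hc : s₀ - n ≤ s
      · exact ih s hc
      have hq : ∀ k : ℕ, ∃ q : ℚ, f (s + ((k + 1 : ℕ) : ℤ)) = algebraMap ℚ K q ∧
          f' (s + ((k + 1 : ℕ) : ℤ)) = algebraMap ℚ K' q := fun k => ih _ (by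
        push_cast at hs' ⊢
        omega)
      choose q hq1 hq2 using hq
      refine ⟨-((P.coeff P.natDegree)⁻¹ * ∑ k ∈ Finset.range P.natDegree,
        P.coeff (P.natDegree - (k + 1)) * q k), ?_, ?_⟩
      · have h1 := h s
        rw [Finset.sum_range_succ'] at h1
        simp only [Nat.sub_zero, Nat.cast_zero, add_zero, hq1] at h1
        have h2 : (algebraMap ℚ K) (P.coeff P.natDegree) ≠ 0 := (_root_.map_ne_zero _).2 hlc
        rw [map_neg, map_mul, map_inv₀, map_sum]
        simp only [map_mul]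
        rw [eq_neg_iff_add_eq_zero, ← mul_right_inj' h2, mul_add, mul_inv_cancel_left₀ h2,
          mul_zero, add_comm]
        exact h1
      · have h1 := h' s
        rw [Finset.sum_range_succ'] at h1
        simp only [Nat.sub_zero, Nat.cast_zero, add_zero, hq2] at h1
        have h2 : (algebraMap ℚ K') (P.coeff P.natDegree) ≠ 0 := (_root_.map_ne_zero _).2 hlc
        rw [map_neg, map_mul, map_inv₀, map_sum]
        simp only [map_mul]
        rw [eq_neg_iff_add_eq_zero, ← mul_right_inj' h2, mul_add, mul_inv_cancel_left₀ h2,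
          mul_zero, add_comm]
        exact h1
  intro s
  exact key (s₀ - s).toNat s (by omega)

end poly

end Pool.Agent.Q219.WD
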