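import Pool.Agent.Q219.WD.Rep

/-!
# Functions on `G / H` with values in a representation: the trace of Frobenius on the invariants of
inertia
-/

set_option autoImplicit false
set_option linter.unusedSectionVars false

open Polynomial

namespace Pool.Agent.Q219.WD

open Pool.Agent.Q187.IL Pool.Agent.Q226.IL

section expN

variable {K V : Type} [Field K] [CharZero K] [AddCommGroup V] [Module K V]
  [FiniteDimensional K V]

lemma pow_zero_of_nilpotent {N : Module.End K V} (hN : IsNilpotent N) {k : ℕ}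
    (hk : Module.finrank K V ≤ k) : N ^ k = 0 := by
  have h1 := LinearMap.aeval_self_charpoly N
  rw [IsNilpotent.charpoly_eq_X_pow_finrank hN, map_pow, aeval_X] at h1
  exact pow_eq_zero_of_le hk h1

lemma expN_of_le {N : Module.End K V} (hN : IsNilpotent N) (s : K) {m : ℕ}
    (hm : Module.finrank K V + 1 ≤ m) :
    expN N s = ∑ k ∈ Finset.range m, ((k.factorial : K)⁻¹ * s ^ k) • N ^ k := by
  rw [expN]
  refine Finset.sum_subset (Finset.range_mono hm) fun k _ hk => ?_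
  rw [Finset.mem_range, not_lt] at hk
  rw [pow_zero_of_nilpotent hN (by omega), smul_zero]

lemma compLeft_pow {X : Type} (N : Module.End K V) (k : ℕ) (f : X → V) (x : X) :
    ((N.compLeft X : Module.End K (X → V)) ^ k) f x = (N ^ k) (f x) := by
  induction k generalizing f with
  | zero => rfl
  | succ k ih =>
    rw [pow_succ, pow_succ, Module.End.mul_apply, Module.End.mul_apply, ih]
    rfl

lemma compLeft_nilpotent {X : Type} {N : Module.End K V} (hN : IsNilpotent N) :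
    IsNilpotent (N.compLeft X : Module.End K (X → V)) := by
  obtain ⟨n, hn⟩ := hN
  refine ⟨n, ?_⟩
  apply LinearMap.ext
  intro f
  funext x
  rw [compLeft_pow, hn]
  rfl

lemma expN_compLeft {X : Type} [Finite X] {N : Module.End K V} (hN : IsNilpotent N) (s : K)
    (f : X → V) (x : X) : expN (N.compLeft X : Module.End K (X → V)) s f x = expN N s (f x) := by
  have : Fintype X := Fintype.ofFinite X
  set m := max (Module.finrank K V + 1) (Module.finrank K (X → V) + 1) with hm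
  rw [expN_of_le hN s (le_max_left _ _ : _ ≤ m),
    expN_of_le (compLeft_nilpotent hN) s (le_max_right _ _ : _ ≤ m), LinearMap.sum_apply,
    LinearMap.sum_apply, Finset.sum_apply]
  refine Finset.sum_congr rfl fun k _ => ?_
  rw [LinearMap.smul_apply, LinearMap.smul_apply, Pi.smul_apply, compLeft_pow]

end expN

section perm

variable {G K V : Type} [Group G] [TopologicalSpace G] [Field K] [CharZero K] [AddCommGroup V]
  [Module K V] [FiniteDimensional K V] {p : ℕ} {I : Subgroup G} {F : G} {t : G → K}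
  {ρ r : Representation K G V} {N : Module.End K V}

/-- the functions on `G / H` with values in the space of `ρ` -/
def permRep (H : Subgroup G) (ρ : Representation K G V) : Representation K G (G ⧸ H → V) where
  toFun g :=
    { toFun := fun f x => ρ g (f (g⁻¹ • x))
      map_add' := fun f f' => by funext x; simp
      map_smul' := fun c f => by funext x; simp }
  map_one' := by
    apply LinearMap.ext
    intro f
    funext x
    simp
  map_mul' g h := by
    apply LinearMap.ext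
    intro f
    funext x
    show ρ (g * h) (f ((g * h)⁻¹ • x)) = ρ g (ρ h (f (h⁻¹ • g⁻¹ • x)))
    rw [map_mul, mul_inv_rev, mul_smul, Module.End.mul_apply]

lemma permRep_apply (H : Subgroup G) (ρ : Representation K G V) (g : G) (f : G ⧸ H → V)
    (x : G ⧸ H) : permRep H ρ g f x = ρ g (f (g⁻¹ • x)) := rfl

lemma normal_smul {J H : Subgroup G} [hJ : J.Normal] (hJH : J ≤ H) {γ : G} (hγ : γ ∈ J)
    (x : G ⧸ H) : γ • x = x := by
  obtain ⟨a, rfl⟩ := QuotientGroup.mk_surjective x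
  refine QuotientGroup.eq.2 (hJH ?_)
  have h1 := hJ.conj_mem _ (J.inv_mem hγ) a⁻¹
  have e : (γ • a)⁻¹ * a = a⁻¹ * γ⁻¹ * a⁻¹⁻¹ := by
    rw [smul_eq_mul]
    group
  show (γ • a)⁻¹ * a ∈ J
  rw [e]
  exact h1

lemma ker_permRep {J H : Subgroup G} [J.Normal] (hJ : J ≤ MonoidHom.ker r) (hJH : J ≤ H) :
    J ≤ MonoidHom.ker (permRep H r) := by
  intro γ hγ
  rw [MonoidHom.mem_ker]
  apply LinearMap.ext
  intro f
  funext x
  rw [permRep_apply, normal_smul hJH (J.inv_mem hγ), MonoidHom.mem_ker.1 (hJ hγ)]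
  rfl

lemma attached_permRep [IsTopologicalGroup G] (h : Attached p I F t ρ r N) {J H : Subgroup G}
    [J.Normal] (hJ : J ≤ MonoidHom.ker r) (hJH : J ≤ H) (hJo : IsOpen (J : Set G))
    (hJf : J.relIndex I ≠ 0) [Finite (G ⧸ H)] :
    Attached p I F t (permRep H ρ) (permRep H r) (N.compLeft (G ⧸ H)) where
  nilpotent := compLeft_nilpotent h.nilpotent
  isOpen := Subgroup.isOpen_mono (ker_permRep hJ hJH) hJo
  finite := fun h0 => hJf (by
    have := Subgroup.relIndex_dvd_of_le_left I (ker_permRep (r := r) hJ hJH)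
    rw [h0] at this
    exact Nat.eq_zero_of_zero_dvd this)
  inertia g hg := by
    apply LinearMap.ext
    intro f
    funext x
    exact LinearMap.congr_fun (h.inertia g hg) (f (g⁻¹ • x))
  frob := by
    apply LinearMap.ext
    intro f
    funext x
    exact LinearMap.congr_fun h.frob (f (F⁻¹ • x))
  exp n g hg := by
    apply LinearMap.ext
    intro f
    funext x
    rw [permRep_apply, h.exp n g hg, Module.End.mul_apply, Module.End.mul_apply, permRep_apply,
      expN_compLeft h.nilpotent]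

/-- the kernel of `N` on the functions -/
def kerCompLeft (X : Type) (N : Module.End K V) :
    LinearMap.ker (N.compLeft X : Module.End K (X → V)) ≃ₗ[K] (X → LinearMap.ker N) where
  toFun f x := ⟨f.1 x, congrFun f.2 x⟩
  map_add' f f' := rfl
  map_smul' c f := rfl
  invFun f := ⟨fun x => (f x : V), by
    rw [LinearMap.mem_ker]
    funext x
    exact (f x).2⟩
  left_inv f := rfl
  right_inv f := rfl

lemma trOn_permRep {H : Subgroup G} [Fintype (G ⧸ H)] [DecidableEq (G ⧸ H)] {w : G}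
    (hw : ∀ v ∈ LinearMap.ker N, r w v ∈ LinearMap.ker N) :
    trOn (permRep H r w) (LinearMap.ker (N.compLeft (G ⧸ H) : Module.End K (G ⧸ H → V))) =
      ((Finset.univ.filter fun x : G ⧸ H => w⁻¹ • x = x).card : K) *
        trOn (r w) (LinearMap.ker N) := by
  have h1 : ∀ f ∈ LinearMap.ker (N.compLeft (G ⧸ H) : Module.End K (G ⧸ H → V)),
      permRep H r w f ∈ LinearMap.ker (N.compLeft (G ⧸ H) : Module.End K (G ⧸ H → V)) := by
    intro f hf
    rw [LinearMap.mem_ker] at hf ⊢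
    funext x
    exact hw _ (congrFun hf (w⁻¹ • x))
  rw [trOn_eq hw]
  have h2 := trOn_of_equiv h1 (kerCompLeft (G ⧸ H) N)
    ((kerCompLeft (G ⧸ H) N).toLinearMap ∘ₗ ((permRep H r w).restrict h1) ∘ₗ
      (kerCompLeft (G ⧸ H) N).symm.toLinearMap) (fun v => by
        rw [LinearMap.comp_apply, LinearMap.comp_apply, LinearEquiv.coe_coe, LinearEquiv.coe_coe,
          LinearEquiv.symm_apply_apply]
        rfl)
  rw [h2]
  exact trace_perm (fun x : G ⧸ H => w⁻¹ • x) ((r w).restrict hw) _ (fun f x => rfl)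

end perm

section grp

variable {G : Type} [Group G] [TopologicalSpace G] {I J : Subgroup G} [I.Normal] [J.Normal] {F : G}

lemma IsWeilGroup.zpow_inj (hG : IsWeilGroup I F) {a b : ℤ}
    (h : ((F : G) : G ⧸ I) ^ a = ((F : G) : G ⧸ I) ^ b) : a = b := by
  have h1 : ((F ^ (a - b) : G) : G ⧸ I) = 1 := by
    rw [QuotientGroup.mk_zpow, zpow_sub, h, mul_inv_cancel]
  have h2 := hG.free (a - b) ((QuotientGroup.eq_one_iff _).1 h1)
  omega

lemma IsWeilGroup.mk_eq (hG : IsWeilGroup I F) (x : G) : ∃ n : ℤ,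
    (x : G ⧸ I) = ((F : G) : G ⧸ I) ^ n := by
  obtain ⟨n, g, hg, rfl⟩ := hG.gen x
  refine ⟨n, ?_⟩
  rw [QuotientGroup.mk_mul, QuotientGroup.mk_zpow, (QuotientGroup.eq_one_iff g).2 hg, mul_one]

/-- the Weil group of the extension fixed by `σ` and `J` -/
def grpH (σ : G) (J : Subgroup G) : Subgroup G := Subgroup.zpowers σ ⊔ J

lemma le_grpH (σ : G) : J ≤ grpH σ J := le_sup_right

lemma mem_grpH {σ x : G} : x ∈ grpH σ J ↔ ∃ k : ℤ, ∃ j ∈ J, σ ^ k * j = x := by
  rw [grpH, Subgroup.mem_sup_of_normal_right]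
  constructor
  · rintro ⟨y, hy, z, hz, rfl⟩
    obtain ⟨k, rfl⟩ := Subgroup.mem_zpowers_iff.1 hy
    exact ⟨k, z, hz, rfl⟩
  · rintro ⟨k, j, hj, rfl⟩
    exact ⟨σ ^ k, Subgroup.zpow_mem_zpowers σ k, j, hj, rfl⟩

lemma mk_sigma {n : ℕ} {g : G} (hg : g ∈ I) :
    ((F ^ (n + 1) * g : G) : G ⧸ I) = ((F : G) : G ⧸ I) ^ ((n : ℤ) + 1) := by
  rw [QuotientGroup.mk_mul, QuotientGroup.mk_pow, (QuotientGroup.eq_one_iff g).2 hg, mul_one]
  exact_mod_cast rfl

/-- an element of the same degree as `σ` with a fixed point on `G / H` is conjugate to an element of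
`σ J` -/
lemma conj_of_fixed (hG : IsWeilGroup I F) (hJI : J ≤ I) {n : ℕ} {g γ : G} (hg : g ∈ I)
    (hγ : γ ∈ I) {x : G ⧸ grpH (F ^ (n + 1) * g) J} (hx : (F ^ (n + 1) * γ)⁻¹ • x = x) :
    ∃ a : G, ∃ j ∈ J, F ^ (n + 1) * γ = a * (F ^ (n + 1) * g) * j * a⁻¹ := by
  obtain ⟨a, rfl⟩ := QuotientGroup.mk_surjective x
  have h1 : ((F ^ (n + 1) * γ)⁻¹ • a)⁻¹ * a ∈ grpH (F ^ (n + 1) * g) J := QuotientGroup.eq.1 hx
  have e1 : ((F ^ (n + 1) * γ)⁻¹ • a)⁻¹ * a = a⁻¹ * (F ^ (n + 1) * γ) * a := by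
    rw [smul_eq_mul]
    group
  rw [e1] at h1
  obtain ⟨k, j, hj, hk⟩ := mem_grpH.1 h1
  obtain ⟨m, hm⟩ := hG.mk_eq a
  have h2 := congrArg (fun y : G => (y : G ⧸ I)) hk
  simp only [QuotientGroup.mk_mul, QuotientGroup.mk_inv, QuotientGroup.mk_zpow] at h2
  have h3 := mk_sigma (F := F) (n := n) hg
  have h4 := mk_sigma (F := F) (n := n) hγ
  rw [QuotientGroup.mk_mul] at h3 h4
  rw [h3, h4, hm, (QuotientGroup.eq_one_iff j).2 (hJI hj), mul_one, ← zpow_mul, ← zpow_neg,
    ← zpow_add, ← zpow_add] at h2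
  have h5 := hG.zpow_inj h2
  have h6 : k = 1 := by
    have h7 : ((n : ℤ) + 1) * k = (n : ℤ) + 1 := by rw [h5]; ring
    have h8 : ((n : ℤ) + 1) ≠ 0 := by omega
    exact mul_left_cancel₀ h8 (by rw [h7, mul_one])
  rw [h6, zpow_one] at hk
  refine ⟨a, j, hj, ?_⟩
  rw [mul_assoc a, hk]
  group

lemma finite_quotient (hG : IsWeilGroup I F) {n : ℕ} {g : G} (hg : g ∈ I)
    [Finite (Quo I J)] : Finite (G ⧸ grpH (F ^ (n + 1) * g) J) := by
  set σ := F ^ (n + 1) * g with hσ
  let f : Fin (n + 1) × Quo I J → G ⧸ grpH σ J := fun y =>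
    ((F ^ (y.1 : ℕ) * ((y.2.out : I) : G) : G) : G ⧸ grpH σ J)
  refine Finite.of_surjective f fun x => ?_
  obtain ⟨a, rfl⟩ := QuotientGroup.mk_surjective x
  obtain ⟨m, hm⟩ := hG.mk_eq a
  set b : ℕ := (m % ((n : ℤ) + 1)).toNat with hb
  have hn : (0 : ℤ) < (n : ℤ) + 1 := by omega
  have hb0 : (b : ℤ) = m % ((n : ℤ) + 1) := Int.toNat_of_nonneg (Int.emod_nonneg m hn.ne')
  have hbn : b < n + 1 := by
    have := Int.emod_lt_of_pos m hn
    omega
  set k : ℤ := m / ((n : ℤ) + 1) with hk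
  have hmk : m = b + ((n : ℤ) + 1) * k := by
    rw [hb0, hk]
    exact (Int.emod_add_mul_ediv m _).symm
  have hγ : (F ^ b)⁻¹ * a * (σ ^ k)⁻¹ ∈ I := by
    rw [← QuotientGroup.eq_one_iff]
    rw [QuotientGroup.mk_mul, QuotientGroup.mk_mul, QuotientGroup.mk_inv, QuotientGroup.mk_inv,
      QuotientGroup.mk_pow, QuotientGroup.mk_zpow, hm, mk_sigma hg, ← zpow_mul, ← zpow_natCast,
      ← zpow_neg, ← zpow_neg, ← zpow_add, ← zpow_add]
    have : -(b : ℤ) + m + -(((n : ℤ) + 1) * k) = 0 := by rw [hmk]; ring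
    rw [this, zpow_zero]
  obtain ⟨h, hh⟩ := QuotientGroup.mk_out_eq_mul (J.subgroupOf I) ⟨_, hγ⟩
  refine ⟨(⟨b, hbn⟩, QuotientGroup.mk ⟨_, hγ⟩), ?_⟩
  refine QuotientGroup.eq.2 ?_
  show (F ^ b * (((QuotientGroup.mk (⟨_, hγ⟩ : I) : Quo I J).out : I) : G))⁻¹ * a ∈ grpH σ J
  have h1 : (((QuotientGroup.mk (⟨_, hγ⟩ : I) : Quo I J).out : I) : G) =
      (F ^ b)⁻¹ * a * (σ ^ k)⁻¹ * ((h : I) : G) := by
    rw [hh]
    rfl
  have h2 : (F ^ b * (((QuotientGroup.mk (⟨_, hγ⟩ : I) : Quo I J).out : I) : G))⁻¹ * a =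
      ((h : I) : G)⁻¹ * σ ^ k := by
    rw [h1]
    group
  rw [h2]
  refine (grpH σ J).mul_mem (le_grpH σ (J.inv_mem (Subgroup.mem_subgroupOf.1 h.2))) ?_
  exact Subgroup.mem_sup_left (Subgroup.zpow_mem_zpowers σ k)

end grp

end Pool.Agent.Q219.WD
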