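import Pool.Agent.Q219.WD.Tate2

/-!
# Independence of `ℓ` of the local Euler factors of all motives is equivalent to independence of `ℓ`
of their Weil-Deligne representations
-/

set_option autoImplicit false
set_option linter.unusedSectionVars false

open Polynomial TensorProduct

namespace Pool.Agent.Q219.WD

open Pool.Agent.Q187.IL Pool.Agent.Q226.IL

section single

variable {G K V : Type} [Group G] [TopologicalSpace G] [Field K] [CharZero K] [AddCommGroup V]
  [Module K V] [FiniteDimensional K V] {p : ℕ} {I J : Subgroup G} {F : G} {t : G → K}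
  {ρ r : Representation K G V} {N : Module.End K V}

lemma trOn_ker_zero (A N : Module.End K V) : trOn A (LinearMap.ker (N ^ 0)) = 0 := by
  have h0 : ∀ v ∈ LinearMap.ker (N ^ 0), v = 0 := fun v hv => by
    rw [LinearMap.mem_ker, pow_zero, Module.End.one_apply] at hv
    exact hv
  have h1 : ∀ v ∈ LinearMap.ker (N ^ 0), A v ∈ LinearMap.ker (N ^ 0) := fun v hv => by
    rw [h0 v hv, map_zero]
    exact Submodule.zero_mem _
  rw [trOn_eq h1]
  have h2 : A.restrict h1 = 0 := by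
    ext v
    show A v = 0
    rw [h0 v v.2, map_zero]
  rw [h2, map_zero]

lemma pow_form [I.Normal] (n m : ℕ) {g : G} (hg : g ∈ I) : ∃ g' ∈ I,
    (F ^ (n + 1) * g) ^ (m + 1) = F ^ ((n + 1) * (m + 1) - 1 + 1) * g' := by
  have e : (n + 1) * (m + 1) - 1 + 1 = (n + 1) * (m + 1) :=
    Nat.sub_add_cancel (Nat.mul_pos (Nat.succ_pos n) (Nat.succ_pos m))
  rw [e]
  refine ⟨(F ^ ((n + 1) * (m + 1)))⁻¹ * (F ^ (n + 1) * g) ^ (m + 1), ?_, by group⟩
  rw [← QuotientGroup.eq_one_iff, QuotientGroup.mk_mul, QuotientGroup.mk_inv,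
    QuotientGroup.mk_pow, QuotientGroup.mk_pow, QuotientGroup.mk_mul, QuotientGroup.mk_pow,
    (QuotientGroup.eq_one_iff g).2 hg, mul_one, ← pow_mul, inv_mul_cancel]

lemma restrict_pow' {A : Module.End K V} {W : Submodule K V} (h : ∀ v ∈ W, A v ∈ W)
    (k : ℕ) (v : W) : (((A.restrict h) ^ k) v : V) = (A ^ k) v := by
  induction k generalizing v with
  | zero => rfl
  | succ k ih =>
    rw [pow_succ, pow_succ, Module.End.mul_apply, Module.End.mul_apply, ih]
    rfl

lemma trOn_pow {A : Module.End K V} {W : Submodule K V} (h : ∀ v ∈ W, A v ∈ W) (k : ℕ) :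
    LinearMap.trace K W ((A.restrict h) ^ k) = trOn (A ^ k) W := by
  have h1 : ∀ v ∈ W, (A ^ k) v ∈ W := fun v hv => by
    rw [← restrict_pow' h k ⟨v, hv⟩]
    exact Subtype.mem _
  rw [trOn_eq h1]
  congr 1
  ext v
  rw [restrict_pow']
  rfl

/-- the trace on the invariants of an induced representation which is isomorphic to `ρ'` -/
lemma trace_of_induced [I.Normal] {V' : Type} [AddCommGroup V'] [Module K V']
    {H : Subgroup G} {ρ' : Representation K G V'} (h : IsInduced H ρ' ρ) (x : G) :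
    LinearMap.trace K _ (frob I ρ' x) = LinearMap.trace K _ (frob I (permRep H ρ) x) := by
  obtain ⟨e, he⟩ := h
  have h1 := trace_twist I (permRep H ρ) ρ' x 1 (fun g _ => rfl) e (fun g v => by
    funext y
    rw [MonoidHom.one_apply, Units.val_one, one_smul, he]
    rfl)
  rwa [MonoidHom.one_apply, Units.val_one, one_mul] at h1

end single

section defs

/-- `A` maps the subspace `W` into itself and `det (1 - T A | W)` is the rational polynomial `P`. -/
def HasPolyOn {K V : Type} [Field K] [CharZero K] [AddCommGroup V] [Module K V]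
    [FiniteDimensional K V] (A : Module.End K V) (W : Submodule K V) (P : ℚ[X]) : Prop :=
  ∃ f : Module.End K W, (∀ v, (f v : V) = A v) ∧ revPoly f = P.map (algebraMap ℚ K)

/-- Rationality and independence of `ℓ` of the traces on `ker N_ℓ ^ j`. -/
def WDIndependent (D : Data) [TopologicalSpace D.G] (p : ℕ) (t : ∀ l, D.G → D.K l) (M : D.Mot)
    (i : ℤ) : Prop :=
  ∀ (r : ∀ l, Representation (D.K l) D.G (D.V l M i)) (N : ∀ l, Module.End (D.K l) (D.V l M i)),
    (∀ l, Attached p D.I D.F (t l) (D.rho l M i) (r l) (N l)) →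
    ∀ (x : D.G) (j : ℕ), ∃ q : ℚ, ∀ l,
      trOn (r l x) (LinearMap.ker (N l ^ j)) = algebraMap ℚ (D.K l) q

/-- a class of pairs `(M, i)` which is closed under the two kinds of twists -/
structure IsClosedClass (D : Data) [TopologicalSpace D.G] (E : Curve D) (C : D.Mot → ℤ → Prop) :
    Prop where
  artin : ∀ H : Subgroup D.G, IsOpen (H : Set D.G) → H.FiniteIndex → ∀ M i, C M i →
    ∃ M', C M' i ∧ ∀ l, IsInduced H (D.rho l M' i) (D.rho l M i)
  tensor : ∀ M i, C M i → ∃ M', C M' (i + 1) ∧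
    ∀ l, IsTensorOf (D.rho l M' (i + 1)) (D.rho l M i) (E.s l)

end defs

section family

variable {Λ : Type} {K : Λ → Type} [∀ l, Field (K l)] [∀ l, CharZero (K l)]

/-- pairwise equality of rational numbers -/
lemma exists_common (a : ∀ l, K l) (h : ∀ l₀ l, ∃ q : ℚ, a l₀ = algebraMap ℚ (K l₀) q ∧
    a l = algebraMap ℚ (K l) q) : ∃ q : ℚ, ∀ l, a l = algebraMap ℚ (K l) q := by
  rcases isEmpty_or_nonempty Λ with he | ⟨⟨l₀⟩⟩
  · exact ⟨0, fun l => he.elim l⟩
  · obtain ⟨q, hq, -⟩ := h l₀ l₀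
    refine ⟨q, fun l => ?_⟩
    obtain ⟨q', h1, h2⟩ := h l₀ l
    rw [hq] at h1
    rw [h2, (algebraMap ℚ (K l₀)).injective h1]

variable {V : Λ → Type} [∀ l, AddCommGroup (V l)] [∀ l, Module (K l) (V l)]
  [∀ l, FiniteDimensional (K l) (V l)]

lemma exists_poly {A : ∀ l, Module.End (K l) (V l)} {W : ∀ l, Submodule (K l) (V l)}
    (hst : ∀ l, ∀ v ∈ W l, A l v ∈ W l)
    (h : ∀ m : ℕ, ∃ q : ℚ, ∀ l, trOn (A l ^ (m + 1)) (W l) = algebraMap ℚ (K l) q) :
    ∃ P : ℚ[X], ∀ l, HasPolyOn (A l) (W l) P := by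
  choose q hq using h
  have h1 : IndepTrace K (fun l => W l) (fun l => (A l).restrict (hst l)) :=
    ⟨q, fun l n => by rw [trOn_pow, hq]⟩
  obtain ⟨P, hP⟩ := (indep_iff K (fun l => W l) (fun l => (A l).restrict (hst l))).2 h1
  exact ⟨P, fun l => ⟨(A l).restrict (hst l), fun v => rfl, hP l⟩⟩

lemma exists_trace {A : ∀ l, Module.End (K l) (V l)} {W : ∀ l, Submodule (K l) (V l)}
    {P : ℚ[X]} (h : ∀ l, HasPolyOn (A l) (W l) P) (m : ℕ) :
    ∃ q : ℚ, ∀ l, trOn (A l ^ (m + 1)) (W l) = algebraMap ℚ (K l) q := by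
  choose f hf hP using h
  have hst : ∀ l, ∀ v ∈ W l, A l v ∈ W l := fun l v hv => by
    rw [← hf l ⟨v, hv⟩]
    exact Subtype.mem _
  have hf' : ∀ l, f l = (A l).restrict (hst l) := fun l => by
    ext v
    rw [hf]
    rfl
  obtain ⟨q, hq⟩ := indepTrace_of_indep K (fun l => W l) f ⟨P, hP⟩
  refine ⟨q m, fun l => ?_⟩
  rw [← hq l m, hf', trOn_pow]

end family

section main

variable {D : Data} [TopologicalSpace D.G] [IsTopologicalGroup D.G] {p : ℕ}
  {t : ∀ l, D.G → D.K l}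

/-- a common subgroup of inertia for two representations -/
lemma common_subgroup (hG : IsWeilGroup D.I D.F) {M : D.Mot} {i : ℤ} {l₀ l : D.Pr}
    {r₀ : Representation (D.K l₀) D.G (D.V l₀ M i)} {N₀ : Module.End (D.K l₀) (D.V l₀ M i)}
    {r : Representation (D.K l) D.G (D.V l M i)} {N : Module.End (D.K l) (D.V l M i)}
    (h₀ : Attached p D.I D.F (t l₀) (D.rho l₀ M i) r₀ N₀)
    (h : Attached p D.I D.F (t l) (D.rho l M i) r N) :
    ∃ J : Subgroup D.G, J.Normal ∧ J ≤ D.I ∧ J ≤ MonoidHom.ker r₀ ∧ J ≤ MonoidHom.ker r ∧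
      IsOpen (J : Set D.G) ∧ J.relIndex D.I ≠ 0 := by
  refine ⟨MonoidHom.ker r₀ ⊓ MonoidHom.ker r ⊓ D.I, inferInstance, inf_le_right,
    inf_le_left.trans inf_le_left, inf_le_left.trans inf_le_right, ?_, ?_⟩
  · exact (h₀.isOpen.inter h.isOpen).inter hG.isOpen
  · rw [Subgroup.inf_relIndex_right]
    exact Subgroup.relIndex_inf_ne_zero h₀.finite h.finite

/-- **The Euler factors of all motives determine the traces on the kernel of `N`.** -/
theorem traces_one (hp : p ≠ 0) (hG : IsWeilGroup D.I D.F) (ht : ∀ l, IsTame D.I (t l))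
    {E : Curve D} {C : D.Mot → ℤ → Prop} (hC : IsClosedClass D E C)
    (hQ : ∀ M i, C M i → D.Independent M i) {M : D.Mot} {i : ℤ} (hMM : C M i)
    {r : ∀ l, Representation (D.K l) D.G (D.V l M i)}
    {N : ∀ l, Module.End (D.K l) (D.V l M i)}
    (h : ∀ l, Attached p D.I D.F (t l) (D.rho l M i) (r l) (N l)) (n : ℕ) {g : D.G}
    (hg : g ∈ D.I) : ∃ q : ℚ, ∀ l,
      trOn (r l (D.F ^ (n + 1) * g)) (LinearMap.ker (N l)) = algebraMap ℚ (D.K l) q := by
  refine exists_common _ fun l₀ l => ?_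
  obtain ⟨J, hJn, hJI, hJ₀, hJ, hJo, hJf⟩ := common_subgroup hG (h l₀) (h l)
  have hfin : Fintype (Quo D.I J) := Subgroup.fintypeOfIndexNeZero hJf
  have hq := finite_quotient (J := J) hG (n := n) hg
  set H := grpH (D.F ^ (n + 1) * g) J with hH
  have hHo : IsOpen (H : Set D.G) := Subgroup.isOpen_mono (le_grpH _) hJo
  have hHf : H.FiniteIndex := Subgroup.finiteIndex_of_finite_quotient
  obtain ⟨M', hMC, hM'⟩ := hC.artin H hHo hHf M i hMM
  obtain ⟨τ, hτ⟩ := (independent_iff M' i).1 (hQ M' i hMC)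
  have key : ∀ l', J ≤ MonoidHom.ker (r l') →
      trOn (r l' (D.F ^ (n + 1) * g)) (LinearMap.ker (N l')) =
        algebraMap ℚ (D.K l') ((coef D.I J D.F (D.F ^ (n + 1) * g) n)⁻¹ * τ n) := by
    intro l' hl'
    have h1 := trace_induced hp hG (h l') (ht l') hJI hl' hJo hJf n hg
    rw [← hH, ← trace_of_induced (hM' l') (D.F ^ (n + 1)), hτ l' n] at h1
    have h2 : algebraMap ℚ (D.K l') (coef D.I J D.F (D.F ^ (n + 1) * g) n) ≠ 0 :=
      (_root_.map_ne_zero _).2 (coef_ne hG hg)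
    rw [map_mul (algebraMap ℚ (D.K l')), map_inv₀, h1, inv_mul_cancel_left₀ h2]
  exact ⟨_, key l₀ hJ₀, key l hJ⟩

/-- **All powers of `N`.** -/
theorem traces_all (hp : p ≠ 0) (hG : IsWeilGroup D.I D.F) (ht : ∀ l, IsTame D.I (t l))
    {E : Curve D} (hE : IsSplitMult E p t) {C : D.Mot → ℤ → Prop} (hC : IsClosedClass D E C)
    (hQ : ∀ M i, C M i → D.Independent M i) (j : ℕ) :
    ∀ (M : D.Mot) (i : ℤ), C M i → ∀ (r : ∀ l, Representation (D.K l) D.G (D.V l M i))
    (N : ∀ l, Module.End (D.K l) (D.V l M i)),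
    (∀ l, Attached p D.I D.F (t l) (D.rho l M i) (r l) (N l)) → ∀ (n : ℕ), ∀ g ∈ D.I,
      ∃ q : ℚ, ∀ l, trOn (r l (D.F ^ (n + 1) * g)) (LinearMap.ker (N l ^ j)) =
        algebraMap ℚ (D.K l) q := by
  induction j using Nat.strong_induction_on with
  | _ j ih =>
    intro M i hMM r N h n g hg
    match j with
    | 0 => exact ⟨0, fun l => by rw [trOn_ker_zero, map_zero]⟩
    | 1 =>
      obtain ⟨q, hq⟩ := traces_one hp hG ht hC hQ hMM h n hg
      exact ⟨q, fun l => by rw [pow_one]; exact hq l⟩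
    | k + 2 =>
      obtain ⟨M', hMC, hM'⟩ := hC.tensor M i hMM
      have hstep : ∀ l, ∃ (r' : Representation (D.K l) D.G (D.V l M' (i + 1)))
          (N' : Module.End (D.K l) (D.V l M' (i + 1))),
          Attached p D.I D.F (t l) (D.rho l M' (i + 1)) r' N' ∧
          ∀ (n : ℕ), ∀ g ∈ D.I, ∀ k : ℕ,
            trOn (r' (D.F ^ n * g)) (LinearMap.ker (N' ^ (k + 1))) =
              trOn (r l (D.F ^ n * g)) (LinearMap.ker (N l ^ (k + 2))) +
                (p : D.K l) ^ n * trOn (r l (D.F ^ n * g)) (LinearMap.ker (N l ^ k)) := by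
        intro l
        obtain ⟨b, hb0, hb1, hb⟩ := hE l
        exact tate_step hp hG (h l) (hM' l) b hb0 hb1 hb
      choose r' N' h' hf using hstep
      obtain ⟨q1, hq1⟩ := ih (k + 1) (by omega) M' (i + 1) hMC r' N' h' n g hg
      obtain ⟨q2, hq2⟩ := ih k (by omega) M i hMM r N h n g hg
      refine ⟨q1 - (p : ℚ) ^ (n + 1) * q2, fun l => ?_⟩
      have h3 := hf l (n + 1) g hg k
      rw [hq1 l, hq2 l] at h3
      have h4 : algebraMap ℚ (D.K l) (q1 - (p : ℚ) ^ (n + 1) * q2) =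
          algebraMap ℚ (D.K l) q1 - (p : D.K l) ^ (n + 1) * algebraMap ℚ (D.K l) q2 := by
        rw [map_sub, map_mul, map_pow, map_natCast]
      rw [h4, h3]
      ring

end main

end Pool.Agent.Q219.WD
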