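import Pool.Agent.Q226.IL.Wt

/-!
# Weights and powers of Frobenius
-/

set_option autoImplicit false
set_option linter.unusedSectionVars false

open Polynomial TensorProduct

namespace Pool.Agent.Q219.WD

open Pool.Agent.Q226.IL

/-- a polynomial whose roots are the `k`-th powers of the roots of `g` -/
theorem exists_pow_poly {q k : ℕ} (hk : 0 < k) {j : ℤ} {g : ℚ[X]} (hg : PureWt q j g) :
    ∃ h : ℚ[X], PureWt (q ^ k) j h ∧ g ∣ h.comp (X ^ k) := by
  have hfin : Module.Finite ℚ (AdjoinRoot g) := (AdjoinRoot.powerBasis hg.1).finite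
  set f : Module.End ℚ (AdjoinRoot g) := Algebra.lmul ℚ (AdjoinRoot g) (AdjoinRoot.root g) with hf
  have hfg : ∀ P : ℚ[X], aeval f P = Algebra.lmul ℚ (AdjoinRoot g) (AdjoinRoot.mk g P) := by
    intro P
    rw [hf, ← AdjoinRoot.aeval_eq, aeval_algHom_apply]
  refine ⟨(f ^ k).charpoly, ⟨(LinearMap.charpoly_monic _).ne_zero, fun z hz => ?_⟩, ?_⟩
  · have h1 : ((f ^ k).baseChange ℂ).charpoly.IsRoot z := by
      rw [LinearMap.charpoly_baseChange, IsRoot.def, eval_map_algebraMap]
      exact hz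
    rw [← Module.End.mem_spectrum_iff_isRoot_charpoly, LinearMap.baseChange_pow,
      spectrum.map_pow_of_pos _ hk] at h1
    obtain ⟨a, ha, rfl⟩ := h1
    obtain ⟨v, hv⟩ := (Module.End.hasEigenvalue_iff_mem_spectrum.2 ha).exists_hasEigenvector
    have h2 : aeval (f.baseChange ℂ) (g.map (algebraMap ℚ ℂ)) = 0 := by
      rw [aeval_map_algebraMap]
      have h3 := aeval_algHom_apply (Module.End.baseChangeHom ℚ ℂ (AdjoinRoot g)) f g
      have h4 : aeval f g = 0 := by rw [hfg, AdjoinRoot.mk_self, map_zero]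
      rw [h4, map_zero] at h3
      exact h3
    have h5 := Module.End.aeval_apply_of_hasEigenvector (p := g.map (algebraMap ℚ ℂ)) hv
    rw [h2, LinearMap.zero_apply, eq_comm, smul_eq_zero] at h5
    have h6 := h5.resolve_right hv.2
    rw [eval_map_algebraMap] at h6
    have h7 := hg.2 a h6
    simp only [norm_pow]
    rw [← pow_mul, mul_comm, pow_mul, h7, ← zpow_natCast, ← zpow_mul, Nat.cast_pow,
      ← zpow_natCast (q : ℝ) k, ← zpow_mul, mul_comm]
  · rw [← AdjoinRoot.mk_eq_zero]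
    have h1 := LinearMap.aeval_self_charpoly (f ^ k)
    have h2 : aeval f ((f ^ k).charpoly.comp (X ^ k)) = 0 := by
      rw [aeval_comp, map_pow, aeval_X, h1]
    rw [hfg] at h2
    have h3 := LinearMap.congr_fun h2 1
    simpa using h3

section

variable {K V : Type} [Field K] [CharZero K] [AddCommGroup V] [Module K V] {q : ℕ}
  {Φ A : Module.End K V}

lemma ev_comp_pow (Φ : Module.End K V) (h : ℚ[X]) (k : ℕ) :
    ev Φ (h.comp (X ^ k)) = ev (Φ ^ k) h := by
  induction h using Polynomial.induction_on' with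
  | add P Q hP hQ => rw [add_comp, map_add, map_add, hP, hQ]
  | monomial n a =>
    rw [← C_mul_X_pow_eq_monomial, mul_comp, C_comp, pow_comp, X_comp, map_mul, map_mul, map_pow,
      map_pow, map_pow, ev_X, ev_X, ev_C, ev_C]

lemma PureWt.comp_pow {k : ℕ} (hk : 0 < k) {j : ℤ} {h : ℚ[X]} (hh : PureWt (q ^ k) j h) :
    PureWt q j (h.comp (X ^ k)) := by
  refine ⟨?_, fun z hz => ?_⟩
  · rw [Ne, comp_eq_zero_iff]
    rintro (h1 | ⟨-, h1⟩)
    · exact hh.1 h1
    · have h2 := congrArg natDegree h1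
      rw [natDegree_X_pow, natDegree_C] at h2
      omega
  · rw [aeval_comp, map_pow, aeval_X] at hz
    have h1 := hh.2 _ hz
    rw [norm_pow, ← pow_mul, mul_comm, pow_mul, Nat.cast_pow, ← zpow_natCast (q : ℝ) k,
      ← zpow_mul, mul_comm, zpow_mul, zpow_natCast] at h1
    exact (pow_left_inj₀ (by positivity) (by positivity) hk.ne').1 h1

/-- operators which commute with a power of `Φ` preserve the weights -/
theorem wt_stable {k : ℕ} (hk : 0 < k) (h : Φ ^ k * A = A * Φ ^ k) (j : ℤ) :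
    ∀ v ∈ wt q Φ j, A v ∈ wt q Φ j := by
  rintro v ⟨g, hg, h1⟩
  obtain ⟨u, hu, c, hc⟩ := exists_pow_poly hk hg
  refine ⟨u.comp (X ^ k), PureWt.comp_pow hk hu, ?_⟩
  rw [ev_comp_pow, ← Module.End.mul_apply, ev_commute h u, Module.End.mul_apply, ← ev_comp_pow, hc,
    mul_comm, map_mul, Module.End.mul_apply, h1, map_zero, map_zero]

end

end Pool.Agent.Q219.WD
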