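import Pool.Agent.Q219.WD.Main
import Pool.Agent.Q226.IL.Main

/-!
# The weight-monodromy conjecture for one `ℓ` and for all `ℓ`
-/

set_option autoImplicit false
set_option linter.unusedSectionVars false

open Polynomial

namespace Pool.Agent.Q219.WD

open Pool.Agent.Q187.IL
open Pool.Agent.Q226.IL (expN ev ev_X ev_C ev_comm wt Mixed MonodromyWeight Killed IsProjTo PureWt
  exists_proj N_wt killed_of_traces)

section lin

variable {K V : Type} [Field K] [CharZero K] [AddCommGroup V] [Module K V]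
  [FiniteDimensional K V] {q : ℕ} {Φ N : Module.End K V}

lemma pow_stable {U : Submodule K V} (h : ∀ v ∈ U, Φ v ∈ U) (m : ℕ) : ∀ v ∈ U, (Φ ^ m) v ∈ U := by
  induction m with
  | zero => exact fun v hv => hv
  | succ m ih =>
    intro v hv
    rw [pow_succ, Module.End.mul_apply]
    exact ih _ (h v hv)

lemma ev_stable {U : Submodule K V} (h : ∀ v ∈ U, Φ v ∈ U) (Q : ℚ[X]) :
    ∀ v ∈ U, ev Φ Q v ∈ U := by
  induction Q using Polynomial.induction_on' with
  | add P Q hP hQ =>
    intro v hv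
    rw [map_add, LinearMap.add_apply]
    exact U.add_mem (hP v hv) (hQ v hv)
  | monomial n a =>
    intro v hv
    rw [← C_mul_X_pow_eq_monomial, map_mul, map_pow, ev_X, ev_C, smul_mul_assoc, one_mul,
      LinearMap.smul_apply]
    exact U.smul_mem _ (pow_stable h n v hv)

lemma trOn_add {A B : Module.End K V} {W : Submodule K V} (hA : ∀ v ∈ W, A v ∈ W)
    (hB : ∀ v ∈ W, B v ∈ W) : trOn (A + B) W = trOn A W + trOn B W := by
  have h : ∀ v ∈ W, (A + B) v ∈ W := fun v hv => W.add_mem (hA v hv) (hB v hv)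
  rw [trOn_eq hA, trOn_eq hB, trOn_eq h, ← map_add]
  rfl

lemma trOn_ev {U : Submodule K V} (h : ∀ v ∈ U, Φ v ∈ U) {τ : ℕ → ℚ}
    (hτ : ∀ m, trOn (Φ ^ m) U = algebraMap ℚ K (τ m)) (Q : ℚ[X]) :
    trOn (ev Φ Q) U = algebraMap ℚ K (Q.sum fun m a => a * τ m) := by
  induction Q using Polynomial.induction_on' with
  | add P Q hP hQ =>
    rw [map_add, trOn_add (ev_stable h P) (ev_stable h Q), hP, hQ, ← map_add,
      Polynomial.sum_add_index]
    · intro i
      rw [zero_mul]
    · intro i a b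
      rw [add_mul]
  | monomial n a =>
    rw [Polynomial.sum_monomial_index a (fun m a => a * τ m) (zero_mul _),
      ← C_mul_X_pow_eq_monomial, map_mul, map_pow, ev_X, ev_C, smul_mul_assoc, one_mul,
      trOn_smul _ (pow_stable h n), hτ, map_mul]

/-- the dimension of the part of weight `a` of a stable subspace -/
lemma trOn_wt {S : Finset ℤ} {g : ℤ → ℚ[X]} (hq : 2 ≤ q) (hK : Killed q S g Φ) {a : ℤ}
    {P P' : ℚ[X]} (hP : IsProjTo q Φ a P) (hP' : IsProjTo q Φ (a - 1) P') {U : Submodule K V}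
    (h : ∀ v ∈ U, Φ v ∈ U) : trOn (ev Φ (P - P')) U =
      (Module.finrank K ((wt q Φ a).submoduleOf U) : K) := by
  have h1 : ∀ v ∈ wt q Φ a, ev Φ (P - P') v = v := by
    intro v hv
    rw [map_sub, LinearMap.sub_apply, hP.le a le_rfl v hv, hP'.gt a (by omega) v hv, sub_zero]
  have h2 : ∀ b, b ≠ a → ∀ v ∈ wt q Φ b, ev Φ (P - P') v = 0 := by
    intro b hb v hv
    rw [map_sub, LinearMap.sub_apply]
    rcases lt_or_gt_of_ne hb with hba | hba
    · rw [hP.le b hba.le v hv, hP'.le b (by omega) v hv, sub_self]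
    · rw [hP.gt b hba v hv, hP'.gt b (by omega) v hv, sub_self]
  have h3 : ∀ v, ev Φ (P - P') v ∈ wt q Φ a := by
    intro v
    refine hK.induction hq (p := fun v => ev Φ (P - P') v ∈ wt q Φ a) v (fun b v hv => ?_)
      (by rw [map_zero]; exact Submodule.zero_mem _) (fun u v hu hv => by
        rw [map_add]; exact Submodule.add_mem _ hu hv)
    by_cases hb : b = a
    · subst hb
      rw [h1 v hv]
      exact hv
    · rw [h2 b hb v hv]
      exact Submodule.zero_mem _
  rw [trOn_eq (ev_stable h (P - P'))]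
  refine LinearMap.IsProj.trace (p := (wt q Φ a).submoduleOf U) ⟨fun x => ?_, fun x hx => ?_⟩
  · exact h3 x
  · exact Subtype.ext (h1 x hx)

lemma N_wt_pow (hq : 2 ≤ q) (hN : N * Φ = (q : K) • (Φ * N)) (k : ℕ) {j : ℤ} {v : V}
    (hv : v ∈ wt q Φ j) : (N ^ k) v ∈ wt q Φ (j - 2 * k) := by
  induction k with
  | zero => simpa using hv
  | succ k ih =>
    rw [pow_succ', Module.End.mul_apply]
    have h1 := N_wt hq hN ih
    have e : j - 2 * (k : ℤ) - 2 = j - 2 * ((k + 1 : ℕ) : ℤ) := by push_cast; ring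
    rwa [e] at h1

lemma ker_stable {c : K} (hN : N * Φ = c • (Φ * N)) (j : ℕ) :
    ∀ v ∈ LinearMap.ker (N ^ j), Φ v ∈ LinearMap.ker (N ^ j) := by
  have hpow : N ^ j * Φ = (c ^ j) • (Φ * N ^ j) := by
    induction j with
    | zero => simp
    | succ j ih =>
      rw [pow_succ', mul_assoc, ih, mul_smul_comm, ← mul_assoc, hN, smul_mul_assoc, smul_smul,
        mul_assoc, ← pow_succ]
  intro v hv
  rw [LinearMap.mem_ker] at hv ⊢
  rw [← Module.End.mul_apply, hpow, LinearMap.smul_apply, Module.End.mul_apply, hv, map_zero,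
    smul_zero]

lemma trOn_top {A : Module.End K V} {W : Submodule K V} (hW : W = ⊤) :
    trOn A W = LinearMap.trace K V A := by
  subst hW
  exact trOn_of_equiv (fun v _ => Submodule.mem_top) (Submodule.topEquiv) A (fun v => rfl)

end lin

section transfer

variable {K V K' V' : Type} [Field K] [CharZero K] [AddCommGroup V] [Module K V]
  [FiniteDimensional K V] [Field K'] [CharZero K'] [AddCommGroup V'] [Module K' V']
  [FiniteDimensional K' V'] {p : ℕ}

/-- Purity depends only on the traces of the powers of `Φ` on the kernels of the powers of `N`. -/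
theorem purity_transfer (hp : 2 ≤ p) {Φ N : Module.End K V} {Φ' N' : Module.End K' V'}
    (hN : N * Φ = (p : K) • (Φ * N)) (hN' : N' * Φ' = (p : K') • (Φ' * N'))
    (hnil : IsNilpotent N) (hnil' : IsNilpotent N') (hu' : IsUnit Φ')
    (hτ : ∀ j m : ℕ, ∃ τ : ℚ, trOn (Φ ^ m) (LinearMap.ker (N ^ j)) = algebraMap ℚ K τ ∧
      trOn (Φ' ^ m) (LinearMap.ker (N' ^ j)) = algebraMap ℚ K' τ)
    (hmix : Mixed p Φ) {w : ℤ} (hM : MonodromyWeight p w Φ N) :
    Mixed p Φ' ∧ MonodromyWeight p w Φ' N' := by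
  choose τ h1 h2 using hτ
  obtain ⟨d₀, hd₀⟩ := hnil
  obtain ⟨d₁, hd₁⟩ := hnil'
  set d := d₀ + d₁ with hd
  have hkd : LinearMap.ker (N ^ d) = ⊤ := by
    rw [hd, pow_add, hd₀, zero_mul, LinearMap.ker_zero]
  have hkd' : LinearMap.ker (N' ^ d) = ⊤ := by
    rw [hd, pow_add, hd₁, mul_zero, LinearMap.ker_zero]
  obtain ⟨S, g, hK, hK'⟩ := killed_of_traces (q := p) (Φ := Φ) (Φ' := Φ') hu'
    (t := fun m => τ d (m + 1)) (fun m => by rw [← h1 d (m + 1), trOn_top hkd])
    (fun m => by rw [← h2 d (m + 1), trOn_top hkd']) hmix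
  choose Q hQ using fun a : ℤ => exists_proj hp S g hK.pure a
  have hdim : ∀ (j : ℕ) (a : ℤ),
      Module.finrank K ((wt p Φ a).submoduleOf (LinearMap.ker (N ^ j))) =
        Module.finrank K' ((wt p Φ' a).submoduleOf (LinearMap.ker (N' ^ j))) := by
    intro j a
    have e1 := trOn_wt hp hK (hQ a K V Φ hK) (hQ (a - 1) K V Φ hK) (ker_stable hN j)
    have e2 := trOn_wt hp hK' (hQ a K' V' Φ' hK') (hQ (a - 1) K' V' Φ' hK') (ker_stable hN' j)
    rw [trOn_ev (ker_stable hN j) (h1 j)] at e1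
    rw [trOn_ev (ker_stable hN' j) (h2 j)] at e2
    have e3 : ((Q a - Q (a - 1)).sum fun m b => b * τ j m) =
        (Module.finrank K ((wt p Φ a).submoduleOf (LinearMap.ker (N ^ j))) : ℚ) :=
      (algebraMap ℚ K).injective (by rw [e1, map_natCast])
    rw [e3, map_natCast] at e2
    exact_mod_cast e2
  have hdim' : ∀ a : ℤ, Module.finrank K (wt p Φ a) = Module.finrank K' (wt p Φ' a) := by
    intro a
    have h := hdim d a
    have e1 : Module.finrank K ((wt p Φ a).submoduleOf (LinearMap.ker (N ^ d))) =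
        Module.finrank K (wt p Φ a) :=
      (Submodule.submoduleOfEquivOfLe (by rw [hkd]; exact le_top)).finrank_eq
    have e2 : Module.finrank K' ((wt p Φ' a).submoduleOf (LinearMap.ker (N' ^ d))) =
        Module.finrank K' (wt p Φ' a) :=
      (Submodule.submoduleOfEquivOfLe (by rw [hkd']; exact le_top)).finrank_eq
    rw [← e1, h, e2]
  refine ⟨⟨S, g, hK'.pure, hK'.kill⟩, fun k => ?_⟩
  have ew : w + (k : ℤ) - 2 * k = w - k := by ring
  have hmaps' : ∀ v ∈ wt p Φ' (w + k), (N' ^ k) v ∈ wt p Φ' (w - k) := fun v hv => by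
    rw [← ew]
    exact N_wt_pow hp hN' k hv
  have hmaps : ∀ v ∈ wt p Φ (w + k), (N ^ k) v ∈ wt p Φ (w - k) := fun v hv => by
    rw [← ew]
    exact N_wt_pow hp hN k hv
  -- injectivity
  have hinj : ∀ v ∈ wt p Φ' (w + k), (N' ^ k) v = 0 → v = 0 := by
    have e0 : (wt p Φ (w + k)).submoduleOf (LinearMap.ker (N ^ k)) = ⊥ := by
      rw [Submodule.eq_bot_iff]
      intro x hx
      refine Subtype.ext ((hM k).injOn (show (x : V) ∈ wt p Φ (w + k) from hx)
        (Submodule.zero_mem _) ?_)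
      have e5 : (N ^ k) (x : V) = 0 := x.2
      show (N ^ k) (x : V) = (N ^ k) (0 : V)
      rw [e5, map_zero]
    have e1 := hdim k (w + k)
    rw [e0, finrank_bot] at e1
    have e2 := Submodule.finrank_eq_zero.1 e1.symm
    intro v hv hv0
    have e3 : (⟨v, hv0⟩ : LinearMap.ker (N' ^ k)) ∈
        (wt p Φ' (w + k)).submoduleOf (LinearMap.ker (N' ^ k)) := hv
    rw [e2, Submodule.mem_bot] at e3
    exact congrArg Subtype.val e3
  have hinjOn : Set.InjOn (N' ^ k) (wt p Φ' (w + k)) := by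
    intro x hx y hy hxy
    rw [← sub_eq_zero]
    refine hinj _ (Submodule.sub_mem _ hx hy) ?_
    rw [map_sub, sub_eq_zero]
    exact hxy
  refine ⟨hmaps', hinjOn, ?_⟩
  -- surjectivity
  let f : wt p Φ (w + k) →ₗ[K] wt p Φ (w - k) := (N ^ k).restrict hmaps
  let f' : wt p Φ' (w + k) →ₗ[K'] wt p Φ' (w - k) := (N' ^ k).restrict hmaps'
  have hf : Function.Bijective f := by
    constructor
    · intro x y hxy
      exact Subtype.ext ((hM k).injOn x.2 y.2 (congrArg Subtype.val hxy))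
    · intro y
      obtain ⟨x, hx, hxy⟩ := (hM k).surjOn y.2
      exact ⟨⟨x, hx⟩, Subtype.ext hxy⟩
  have hr : Module.finrank K' (wt p Φ' (w + k)) = Module.finrank K' (wt p Φ' (w - k)) := by
    rw [← hdim', ← hdim']
    exact (LinearEquiv.ofBijective f hf).finrank_eq
  have hf' : Function.Injective f' := by
    intro x y hxy
    exact Subtype.ext (hinjOn x.2 y.2 (congrArg Subtype.val hxy))
  have hs := (LinearMap.injective_iff_surjective_of_finrank_eq_finrank hr).1 hf'
  intro y hy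
  obtain ⟨x, hx⟩ := hs ⟨y, hy⟩
  exact ⟨x, x.2, congrArg Subtype.val hx⟩

end transfer

end Pool.Agent.Q219.WD
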