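import Pool.Agent.Q219.WD.Defs

/-!
# Traces on subspaces, Weil-Deligne representations and the invariants of inertia
-/

set_option autoImplicit false
set_option linter.unusedSectionVars false

open Polynomial

namespace Pool.Agent.Q219.WD

section tr

variable {K V : Type} [Field K] [AddCommGroup V] [Module K V]

open Classical in
/-- the trace of `A` on the subspace `W` -/
noncomputable def trOn (A : Module.End K V) (W : Submodule K V) : K :=
  if h : ∀ v ∈ W, A v ∈ W then LinearMap.trace K W (A.restrict h) else 0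

lemma trOn_eq {A : Module.End K V} {W : Submodule K V} (h : ∀ v ∈ W, A v ∈ W) :
    trOn A W = LinearMap.trace K W (A.restrict h) := dif_pos h

lemma trOn_congr {A B : Module.End K V} {W : Submodule K V} (h : ∀ v ∈ W, A v = B v) :
    trOn A W = trOn B W := by
  by_cases hA : ∀ v ∈ W, A v ∈ W
  · have hB : ∀ v ∈ W, B v ∈ W := fun v hv => h v hv ▸ hA v hv
    rw [trOn_eq hA, trOn_eq hB]
    congr 1
    ext v
    exact h v v.2
  · have hB : ¬ ∀ v ∈ W, B v ∈ W := fun hB => hA fun v hv => (h v hv).symm ▸ hB v hv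
    rw [trOn, trOn, dif_neg hA, dif_neg hB]

lemma trOn_of_equiv {U : Type} [AddCommGroup U] [Module K U] {A : Module.End K V}
    {W : Submodule K V} (h : ∀ v ∈ W, A v ∈ W) (e : W ≃ₗ[K] U) (B : Module.End K U)
    (hB : ∀ v : W, e ⟨A v, h v v.2⟩ = B (e v)) : trOn A W = LinearMap.trace K U B := by
  rw [trOn_eq h, ← LinearMap.trace_conj' _ e]
  congr 1
  apply LinearMap.ext
  intro u
  obtain ⟨v, rfl⟩ := e.surjective u
  rw [LinearEquiv.conj_apply_apply, LinearEquiv.symm_apply_apply, ← hB]
  rfl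

lemma trOn_of_equiv' {V' : Type} [AddCommGroup V'] [Module K V'] {A : Module.End K V}
    {W : Submodule K V} {A' : Module.End K V'} {W' : Submodule K V'}
    (h : ∀ v ∈ W, A v ∈ W) (h' : ∀ v ∈ W', A' v ∈ W') (e : W ≃ₗ[K] W')
    (hB : ∀ v : W, (e ⟨A v, h v v.2⟩ : V') = A' (e v)) : trOn A W = trOn A' W' := by
  rw [trOn_eq h', trOn_of_equiv h e]
  intro v
  exact Subtype.ext (hB v)

/-- the trace on the image of an idempotent -/
lemma trOn_idem [FiniteDimensional K V] {A e : Module.End K V} {U W : Submodule K V}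
    (hAU : ∀ v ∈ U, A v ∈ U) (heU : ∀ v ∈ U, e v ∈ U) (hW : ∀ v, v ∈ W ↔ v ∈ U ∧ e v = v)
    (hee : ∀ v ∈ U, e (e v) = e v) (hc : ∀ v ∈ U, e (A v) = A (e v)) :
    trOn A W = trOn (A * e) U := by
  have h1 : ∀ v ∈ U, (A * e) v ∈ U := fun v hv => hAU _ (heU v hv)
  have h2 : ∀ v ∈ W, A v ∈ W := fun v hv => (hW _).2
    ⟨hAU _ ((hW v).1 hv).1, by rw [hc _ ((hW v).1 hv).1, ((hW v).1 hv).2]⟩
  have hle : W ≤ U := fun v hv => ((hW v).1 hv).1
  rw [trOn_eq h1, ← LinearMap.trace_restrict_eq_of_forall_mem (W.submoduleOf U)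
    ((A * e).restrict h1)]
  · refine trOn_of_equiv h2 (Submodule.submoduleOfEquivOfLe hle).symm _ fun v => ?_
    apply (Submodule.submoduleOfEquivOfLe hle).injective
    rw [LinearEquiv.apply_symm_apply]
    apply Subtype.ext
    show A v = A (e v)
    rw [((hW v).1 v.2).2]
  · intro u
    show (A * e) u ∈ W
    refine (hW _).2 ⟨h1 u u.2, ?_⟩
    rw [Module.End.mul_apply, hc _ (heU u u.2), hee u u.2]

lemma trOn_smul (c : K) {A : Module.End K V} {W : Submodule K V} (h : ∀ v ∈ W, A v ∈ W) :
    trOn (c • A) W = c * trOn A W := by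
  have h1 : ∀ v ∈ W, (c • A) v ∈ W := fun v hv => W.smul_mem c (h v hv)
  rw [trOn_eq h, trOn_eq h1, ← smul_eq_mul, ← map_smul]
  congr 1

lemma trOn_sum {ι : Type} (s : Finset ι) (A : ι → Module.End K V) {W : Submodule K V}
    (h : ∀ i ∈ s, ∀ v ∈ W, A i v ∈ W) : trOn (∑ i ∈ s, A i) W = ∑ i ∈ s, trOn (A i) W := by
  classical
  induction s using Finset.induction_on with
  | empty =>
    rw [Finset.sum_empty, Finset.sum_empty]
    have h1 : ∀ v ∈ W, (0 : Module.End K V) v ∈ W := fun v _ => W.zero_mem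
    rw [trOn_eq h1]
    have h2 : (0 : Module.End K V).restrict h1 = 0 := by ext v; rfl
    rw [h2, map_zero]
  | insert i s hi ih =>
    have hs : ∀ v ∈ W, (∑ i ∈ s, A i) v ∈ W := fun v hv => by
      rw [LinearMap.sum_apply]
      exact W.sum_mem fun j hj => h j (Finset.mem_insert_of_mem hj) v hv
    have hi' := h i (Finset.mem_insert_self i s)
    have h1 : ∀ v ∈ W, (A i + ∑ i ∈ s, A i) v ∈ W := fun v hv => W.add_mem (hi' v hv) (hs v hv)
    rw [Finset.sum_insert hi, Finset.sum_insert hi, ← ih fun j hj =>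
      h j (Finset.mem_insert_of_mem hj), trOn_eq h1, trOn_eq hi', trOn_eq hs, ← map_add]
    congr 1

/-- the trace of a permutation of the factors of `X → U`, combined with `A` -/
lemma trace_perm {X U : Type} [Fintype X] [DecidableEq X] [AddCommGroup U] [Module K U]
    [FiniteDimensional K U] (π : X → X) (A : Module.End K U) (T : Module.End K (X → U))
    (hT : ∀ f x, T f x = A (f (π x))) : LinearMap.trace K (X → U) T =
      ((Finset.univ.filter fun x => π x = x).card : K) * LinearMap.trace K U A := by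
  have h1 : T = ∑ x : X, (LinearMap.single K (fun _ : X => U) x) ∘ₗ
      (A ∘ₗ LinearMap.proj (π x)) := by
    apply LinearMap.ext
    intro f
    funext x
    rw [hT, LinearMap.sum_apply, Finset.sum_apply, Finset.sum_eq_single x]
    · simp
    · intro y _ hy
      simp [hy.symm]
    · intro hx
      exact absurd (Finset.mem_univ x) hx
  rw [h1, map_sum]
  have h2 : ∀ x : X, LinearMap.trace K (X → U) ((LinearMap.single K (fun _ : X => U) x) ∘ₗ
      (A ∘ₗ LinearMap.proj (π x))) = if π x = x then LinearMap.trace K U A else 0 := by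
    intro x
    rw [LinearMap.trace_comp_comm']
    split_ifs with hx
    · congr 1
      ext u
      simp [hx]
    · have : (A ∘ₗ LinearMap.proj (π x)) ∘ₗ (LinearMap.single K (fun _ : X => U) x) = 0 := by
        ext u
        simp [hx]
      rw [this, map_zero]
  rw [Finset.sum_congr rfl fun x _ => h2 x, ← Finset.sum_filter, Finset.sum_const, nsmul_eq_mul]

end tr

section wd

open Pool.Agent.Q187.IL Pool.Agent.Q226.IL

variable {G K V : Type} [Group G] [TopologicalSpace G] [Field K] [CharZero K] [AddCommGroup V]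
  [Module K V] [FiniteDimensional K V] {p : ℕ} {I : Subgroup G} {F : G} {t : G → K}
  {ρ r : Representation K G V} {N : Module.End K V}

lemma IsTame.one (ht : IsTame I t) : t 1 = 0 := by
  have := ht.add 1 I.one_mem 1 I.one_mem
  rw [mul_one] at this
  exact (left_eq_add.1 this)

lemma Attached.isWD (h : Attached p I F t ρ r N) (ht : IsTame I t) : IsWeilDeligne p I F ρ r N :=
  ⟨h.nilpotent, h.finite, h.inertia, h.frob, t, ht.add, ht.ne, h.exp⟩

lemma Attached.rho_pow (h : Attached p I F t ρ r N) (ht : IsTame I t) (n : ℤ) :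
    ρ (F ^ n) = r (F ^ n) := by
  have := h.exp n 1 I.one_mem
  rwa [mul_one, ht.one, expN_zero, mul_one] at this

lemma Attached.comm (h : Attached p I F t ρ r N) (n : ℕ) {g : G} (hg : g ∈ I) :
    N * r (F ^ n * g) = ((p : K) ^ n) • (r (F ^ n * g) * N) := by
  rw [map_mul, map_pow]
  have h1 : N * r F ^ n = ((p : K) ^ n) • (r F ^ n * N) := by
    induction n with
    | zero => simp
    | succ n ih =>
      rw [pow_succ, ← mul_assoc, ih, smul_mul_assoc, mul_assoc, h.frob, mul_smul_comm, smul_smul,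
        ← mul_assoc, ← pow_succ, ← pow_succ]
  rw [← mul_assoc, h1, smul_mul_assoc, mul_assoc, h.inertia g hg, mul_assoc]

lemma Attached.comm_pow (h : Attached p I F t ρ r N) (n : ℕ) {g : G} (hg : g ∈ I) (j : ℕ) :
    N ^ j * r (F ^ n * g) = (((p : K) ^ n) ^ j) • (r (F ^ n * g) * N ^ j) := by
  induction j with
  | zero => simp
  | succ j ih =>
    rw [pow_succ', mul_assoc, ih, mul_smul_comm, ← mul_assoc, h.comm n hg, smul_mul_assoc,
      smul_smul, mul_assoc, ← pow_succ]

lemma Attached.stable (h : Attached p I F t ρ r N) (n : ℕ) {g : G} (hg : g ∈ I) (j : ℕ) :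
    ∀ v ∈ LinearMap.ker (N ^ j), r (F ^ n * g) v ∈ LinearMap.ker (N ^ j) := by
  intro v hv
  rw [LinearMap.mem_ker] at hv ⊢
  rw [← Module.End.mul_apply, h.comm_pow n hg, LinearMap.smul_apply, Module.End.mul_apply, hv,
    map_zero, smul_zero]

lemma Attached.stable_ker (h : Attached p I F t ρ r N) (n : ℕ) {g : G} (hg : g ∈ I) :
    ∀ v ∈ LinearMap.ker N, r (F ^ n * g) v ∈ LinearMap.ker N := by
  have := h.stable n hg 1
  rwa [pow_one] at this

variable {J : Subgroup G} [J.Normal] [Fintype (Quo I J)]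

/-- The trace of a power of Frobenius on the invariants of inertia. -/
theorem trace_frob [I.Normal] (h : Attached p I F t ρ r N) (ht : IsTame I t)
    (hJ : J ≤ MonoidHom.ker r) (m : ℕ) :
    LinearMap.trace K _ (frob I ρ (F ^ m)) = (Fintype.card (Quo I J) : K)⁻¹ *
      ∑ x : Quo I J, trOn (r (F ^ m * ((x.out : I) : G))) (LinearMap.ker N) := by
  have hw := h.isWD ht
  have h0 : LinearMap.trace K _ (frob I ρ (F ^ m)) = trOn (ρ (F ^ m)) (inv I ρ) :=
    (trOn_eq (frob_mem I ρ (F ^ m))).symm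
  have hρ : ρ (F ^ m) = r (F ^ m) := by
    have := h.rho_pow ht m
    simpa using this
  have hAU : ∀ v ∈ LinearMap.ker N, r (F ^ m) v ∈ LinearMap.ker N := by
    have := h.stable_ker m I.one_mem
    rwa [mul_one] at this
  have heN : N * avg I J r = avg I J r * N := avg_comm h.inertia
  have heU : ∀ v ∈ LinearMap.ker N, avg I J r v ∈ LinearMap.ker N := by
    intro v hv
    rw [LinearMap.mem_ker] at hv ⊢
    rw [← Module.End.mul_apply, heN, Module.End.mul_apply, hv, map_zero]
  have hW : ∀ v, v ∈ inv I ρ ↔ v ∈ LinearMap.ker N ∧ avg I J r v = v := by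
    intro v
    have h1 := mem_invariants hw hJ (c := 1) (fun g => by rw [one_mul, mul_one]) (one_mul 1) v
    rw [one_mul] at h1
    rw [LinearMap.mem_ker, ← h1, mem_inv]
    exact ⟨fun h2 => ⟨⟨v, rfl⟩, h2⟩, fun h2 => h2.2⟩
  rw [h0, hρ, trOn_idem hAU heU hW]
  · have h1 : r (F ^ m) * avg I J r = (Fintype.card (Quo I J) : K)⁻¹ •
        ∑ x : Quo I J, r (F ^ m * ((x.out : I) : G)) := by
      rw [avg, mul_smul_comm, Finset.mul_sum]
      congr 1
      refine Finset.sum_congr rfl fun x _ => ?_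
      rw [map_mul]
    have hst : ∀ x : Quo I J, ∀ v ∈ LinearMap.ker N,
        r (F ^ m * ((x.out : I) : G)) v ∈ LinearMap.ker N :=
      fun x => h.stable_ker m (x.out : I).2
    rw [h1, trOn_smul, trOn_sum]
    · exact fun x _ => hst x
    · intro v hv
      rw [LinearMap.sum_apply]
      exact Submodule.sum_mem _ fun x _ => hst x v hv
  · intro v _
    rw [← Module.End.mul_apply, avg_idem hJ]
  · intro v _
    have : r (F ^ m) * avg I J r = avg I J r * r (F ^ m) := avg_G hJ (F ^ m)
    rw [← Module.End.mul_apply, ← this, Module.End.mul_apply]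

end wd

end Pool.Agent.Q219.WD
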