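import Pool.Agent.Q219.WD.Ind

/-!
# The trace of an element of positive degree on the kernel of `N`, in terms of the invariants of
inertia in an induced representation
-/

set_option autoImplicit false
set_option linter.unusedSectionVars false

open Polynomial

namespace Pool.Agent.Q219.WD

open Pool.Agent.Q187.IL Pool.Agent.Q226.IL

section

variable {G K V : Type} [Group G] [TopologicalSpace G] [Field K] [CharZero K] [AddCommGroup V]
  [Module K V] [FiniteDimensional K V] {p : ℕ} {I J : Subgroup G} {F : G} {t : G → K}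
  {ρ r : Representation K G V} {N : Module.End K V}

lemma r_injective (r : Representation K G V) (a : G) : Function.Injective (r a) := by
  intro v w hvw
  have h1 := congrArg (r a⁻¹) hvw
  rwa [← Module.End.mul_apply, ← Module.End.mul_apply, ← map_mul, inv_mul_cancel, map_one,
    Module.End.one_apply, Module.End.one_apply] at h1

lemma Attached.mem_ker_iff (h : Attached p I F t ρ r N) (hp : p ≠ 0) (hG : IsWeilGroup I F)
    (a : G) : ∀ v, N (r a v) = 0 ↔ N v = 0 := by
  let S : Subgroup G :=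
    { carrier := {a | ∀ v, N (r a v) = 0 ↔ N v = 0}
      mul_mem' := by
        intro a b ha hb v
        rw [map_mul, Module.End.mul_apply, ha, hb]
      one_mem' := by
        intro v
        rw [map_one, Module.End.one_apply]
      inv_mem' := by
        intro a ha v
        have h1 : r a (r a⁻¹ v) = v := by
          rw [← Module.End.mul_apply, ← map_mul, mul_inv_cancel, map_one, Module.End.one_apply]
        rw [← ha (r a⁻¹ v), h1] }
  have hI : ∀ g ∈ I, g ∈ S := by
    intro g hg v
    rw [← Module.End.mul_apply, h.inertia g hg, Module.End.mul_apply]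
    exact ⟨fun h1 => r_injective r g (by rw [h1, map_zero]), fun h1 => by rw [h1, map_zero]⟩
  have hF : F ∈ S := by
    intro v
    rw [← Module.End.mul_apply, h.frob, LinearMap.smul_apply, Module.End.mul_apply, smul_eq_zero]
    constructor
    · rintro (h1 | h1)
      · exact absurd h1 (by exact_mod_cast hp)
      · exact r_injective r F (by rw [h1, map_zero])
    · intro h1
      right
      rw [h1, map_zero]
  obtain ⟨n, g, hg, rfl⟩ := hG.gen a
  exact S.mul_mem (S.zpow_mem hF n) (hI g hg)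

lemma trOn_conj (r : Representation K G V) {W : Submodule K V} {a : G}
    (hW : ∀ v, r a v ∈ W ↔ v ∈ W) {B : Module.End K V} (hB : ∀ v ∈ W, B v ∈ W) :
    trOn (r a * B * r a⁻¹) W = trOn B W := by
  have h1 : ∀ v, r a (r a⁻¹ v) = v := fun v => by
    rw [← Module.End.mul_apply, ← map_mul, mul_inv_cancel, map_one, Module.End.one_apply]
  have h2 : ∀ v, r a⁻¹ (r a v) = v := fun v => by
    rw [← Module.End.mul_apply, ← map_mul, inv_mul_cancel, map_one, Module.End.one_apply]
  have h3 : ∀ v ∈ W, r a⁻¹ v ∈ W := fun v hv => (hW _).1 (by rwa [h1])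
  let e : W ≃ₗ[K] W :=
    { toFun := fun v => ⟨r a v, (hW _).2 v.2⟩
      map_add' := fun v w => Subtype.ext (map_add _ _ _)
      map_smul' := fun c v => Subtype.ext (map_smul _ _ _)
      invFun := fun v => ⟨r a⁻¹ v, h3 v v.2⟩
      left_inv := fun v => Subtype.ext (h2 v)
      right_inv := fun v => Subtype.ext (h1 v) }
  symm
  refine trOn_of_equiv' hB (fun v hv => (hW _).2 (hB _ (h3 v hv))) e fun v => ?_
  show r a (B v) = r a (B (r a⁻¹ (r a v)))
  rw [h2]

/-- the coefficient in `trace_induced` -/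
noncomputable def coef (I J : Subgroup G) [Fintype (Quo I J)] (F σ : G) (n : ℕ) : ℚ :=
  (Fintype.card (Quo I J) : ℚ)⁻¹ * ∑ x : Quo I J,
    (Nat.card {y : G ⧸ grpH σ J // (F ^ (n + 1) * ((x.out : I) : G))⁻¹ • y = y} : ℚ)

variable [I.Normal] [J.Normal] [Fintype (Quo I J)]

lemma coef_ne (hG : IsWeilGroup I F) {n : ℕ} {g : G} (hg : g ∈ I) :
    coef I J F (F ^ (n + 1) * g) n ≠ 0 := by
  have hfin := finite_quotient (J := J) hG (n := n) hg
  rw [coef]
  refine mul_ne_zero (inv_ne_zero ?_) (ne_of_gt ?_)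
  · have : Nonempty (Quo I J) := ⟨QuotientGroup.mk 1⟩
    exact_mod_cast Fintype.card_ne_zero
  · refine Finset.sum_pos' (fun x _ => by positivity)
      ⟨QuotientGroup.mk ⟨g, hg⟩, Finset.mem_univ _, ?_⟩
    have h1 : Nonempty {y : G ⧸ grpH (F ^ (n + 1) * g) J // (F ^ (n + 1) *
        (((QuotientGroup.mk (⟨g, hg⟩ : I) : Quo I J).out : I) : G))⁻¹ • y = y} := by
      refine ⟨((1 : G) : G ⧸ grpH (F ^ (n + 1) * g) J), ?_⟩
      obtain ⟨h, hh⟩ := QuotientGroup.mk_out_eq_mul (J.subgroupOf I) (⟨g, hg⟩ : I)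
      refine QuotientGroup.eq.2 ?_
      have h2 : (((QuotientGroup.mk (⟨g, hg⟩ : I) : Quo I J).out : I) : G) = g * ((h : I) : G) := by
        rw [hh]
        rfl
      have h3 : ((F ^ (n + 1) * (((QuotientGroup.mk (⟨g, hg⟩ : I) : Quo I J).out : I) : G))⁻¹ •
          (1 : G))⁻¹ * 1 = (F ^ (n + 1) * g) * ((h : I) : G) := by
        rw [h2, smul_eq_mul]
        group
      rw [h3]
      exact (grpH _ J).mul_mem (Subgroup.mem_sup_left (Subgroup.mem_zpowers _))
        (le_grpH _ (Subgroup.mem_subgroupOf.1 h.2))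
    have : 0 < Nat.card {y : G ⧸ grpH (F ^ (n + 1) * g) J // (F ^ (n + 1) *
        (((QuotientGroup.mk (⟨g, hg⟩ : I) : Quo I J).out : I) : G))⁻¹ • y = y} := Nat.card_pos
    exact_mod_cast this

/-- The trace of Frobenius on the invariants of inertia in the functions on `G / H`. -/
theorem trace_induced [IsTopologicalGroup G] (hp : p ≠ 0) (hG : IsWeilGroup I F)
    (h : Attached p I F t ρ r N) (ht : IsTame I t) (hJI : J ≤ I) (hJ : J ≤ MonoidHom.ker r)
    (hJo : IsOpen (J : Set G)) (hJf : J.relIndex I ≠ 0) (n : ℕ) {g : G} (hg : g ∈ I) :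
    LinearMap.trace K _ (frob I (permRep (grpH (F ^ (n + 1) * g) J) ρ) (F ^ (n + 1))) =
      algebraMap ℚ K (coef I J F (F ^ (n + 1) * g) n) *
        trOn (r (F ^ (n + 1) * g)) (LinearMap.ker N) := by
  classical
  have hfin := finite_quotient (J := J) hG (n := n) hg
  have : Fintype (G ⧸ grpH (F ^ (n + 1) * g) J) := Fintype.ofFinite _
  have h1 := attached_permRep h hJ (le_grpH (F ^ (n + 1) * g)) hJo hJf
  rw [trace_frob h1 ht (ker_permRep hJ (le_grpH _)) (n + 1), coef, map_mul, map_inv₀,
    map_natCast, map_sum, mul_assoc, Finset.sum_mul]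
  congr 1
  refine Finset.sum_congr rfl fun x _ => ?_
  have hst : ∀ v ∈ LinearMap.ker N, r (F ^ (n + 1) * ((x.out : I) : G)) v ∈ LinearMap.ker N :=
    h.stable_ker (n + 1) (x.out : I).2
  rw [trOn_permRep hst, map_natCast, Nat.card_eq_fintype_card, Fintype.card_subtype]
  by_cases hex : ∃ y : G ⧸ grpH (F ^ (n + 1) * g) J,
      (F ^ (n + 1) * ((x.out : I) : G))⁻¹ • y = y
  · obtain ⟨y, hy⟩ := hex
    obtain ⟨a, j, hj, ha⟩ := conj_of_fixed hG hJI hg (x.out : I).2 hy
    congr 1
    have h2 : r (F ^ (n + 1) * ((x.out : I) : G)) =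
        r a * r (F ^ (n + 1) * g) * r a⁻¹ := by
      rw [ha, map_mul, map_mul, map_mul, MonoidHom.mem_ker.1 (hJ hj), mul_one]
    rw [h2]
    refine trOn_conj r (fun v => ?_) (h.stable_ker (n + 1) hg)
    rw [LinearMap.mem_ker, LinearMap.mem_ker]
    exact h.mem_ker_iff hp hG a v
  · have h2 : (Finset.univ.filter fun y : G ⧸ grpH (F ^ (n + 1) * g) J =>
        (F ^ (n + 1) * ((x.out : I) : G))⁻¹ • y = y).card = 0 := by
      rw [Finset.card_eq_zero, Finset.filter_eq_empty_iff]
      exact fun y _ hy => hex ⟨y, hy⟩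
    rw [h2, Nat.cast_zero, zero_mul, zero_mul]

end

end Pool.Agent.Q219.WD
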