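import Pool.Agent.Q219.WD.Step

/-!
# Tensor products with the cohomology of an elliptic curve with split multiplicative reduction
-/

set_option autoImplicit false
set_option linter.unusedSectionVars false

open Polynomial TensorProduct

namespace Pool.Agent.Q219.WD

open Pool.Agent.Q187.IL Pool.Agent.Q226.IL

section lin

variable {K V : Type} [Field K] [CharZero K] [AddCommGroup V] [Module K V]

/-- `(v₁, v₂) ↦ (N v₁ + v₂, N v₂)` -/
def tN (N : Module.End K V) : Module.End K (V × V) :=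
  LinearMap.prod (N ∘ₗ LinearMap.fst K V V + LinearMap.snd K V V) (N ∘ₗ LinearMap.snd K V V)

lemma tN_apply (N : Module.End K V) (v : V × V) : tN N v = (N v.1 + v.2, N v.2) := rfl

lemma tN_pow (N : Module.End K V) (j : ℕ) (v : V × V) :
    (tN N ^ (j + 1)) v = ((N ^ (j + 1)) v.1 + ((j + 1 : ℕ) : K) • (N ^ j) v.2,
      (N ^ (j + 1)) v.2) := by
  induction j with
  | zero => simp [tN_apply]
  | succ j ih =>
    rw [pow_succ', Module.End.mul_apply, ih, tN_apply]
    have h1 : ∀ w, N ((N ^ (j + 1)) w) = (N ^ (j + 1 + 1)) w := fun w => by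
      rw [pow_succ' N (j + 1), Module.End.mul_apply]
    have h2 : ∀ w, N ((N ^ j) w) = (N ^ (j + 1)) w := fun w => by
      rw [pow_succ' N j, Module.End.mul_apply]
    simp only [map_add, map_smul, h1, h2]
    refine Prod.ext ?_ rfl
    simp only
    push_cast
    module

lemma tN_nilpotent {N : Module.End K V} (hN : IsNilpotent N) : IsNilpotent (tN N) := by
  obtain ⟨m, hm⟩ := hN
  refine ⟨m + 1, ?_⟩
  apply LinearMap.ext
  intro v
  rw [tN_pow, pow_succ, hm]
  simp

/-- the kernel of a power of `tN N` -/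
def theta (N : Module.End K V) (i : ℕ) :
    (LinearMap.ker (N ^ (i + 2)) × LinearMap.ker (N ^ i)) ≃ₗ[K] LinearMap.ker (tN N ^ (i + 1)) where
  toFun x := ⟨((x.1 : V), -((((i + 1 : ℕ) : K)⁻¹) • N (x.1 : V)) + (x.2 : V)), by
    have h1 : (N ^ (i + 2)) (x.1 : V) = 0 := x.1.2
    have h2 : (N ^ i) (x.2 : V) = 0 := x.2.2
    have h3 : ∀ w, (N ^ i) (N w) = (N ^ (i + 1)) w := fun w => by
      rw [pow_succ N i, Module.End.mul_apply]
    have h4 : ∀ w, (N ^ (i + 1)) (N w) = (N ^ (i + 2)) w := fun w => by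
      rw [pow_succ N (i + 1), Module.End.mul_apply]
    have h5 : (N ^ (i + 1)) (x.2 : V) = 0 := by
      rw [pow_succ', Module.End.mul_apply, h2, map_zero]
    have hc : ((i + 1 : ℕ) : K) ≠ 0 := by exact_mod_cast Nat.succ_ne_zero i
    rw [LinearMap.mem_ker, tN_pow]
    simp only [map_add, map_neg, map_smul, h2, h3, h4, h1, h5]
    refine Prod.ext ?_ ?_
    · simp only [add_zero, smul_neg, smul_smul, mul_inv_cancel₀ hc, one_smul, Prod.fst_zero,
        add_neg_cancel]
    · simp⟩
  map_add' x y := by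
    apply Subtype.ext
    refine Prod.ext rfl ?_
    show -((((i + 1 : ℕ) : K)⁻¹) • N ((x.1 : V) + (y.1 : V))) + ((x.2 : V) + (y.2 : V)) =
      (-((((i + 1 : ℕ) : K)⁻¹) • N (x.1 : V)) + (x.2 : V)) +
        (-((((i + 1 : ℕ) : K)⁻¹) • N (y.1 : V)) + (y.2 : V))
    rw [map_add, smul_add]
    abel
  map_smul' c x := by
    apply Subtype.ext
    refine Prod.ext rfl ?_
    show -((((i + 1 : ℕ) : K)⁻¹) • N (c • (x.1 : V))) + c • (x.2 : V) =
      c • (-((((i + 1 : ℕ) : K)⁻¹) • N (x.1 : V)) + (x.2 : V))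
    rw [map_smul, smul_add, smul_neg, smul_comm c]
  invFun y := (⟨y.1.1, by
      have h := congrArg Prod.fst ((LinearMap.mem_ker.1 y.2).symm.trans (tN_pow N i y.1))
      have h' := congrArg Prod.snd ((LinearMap.mem_ker.1 y.2).symm.trans (tN_pow N i y.1))
      simp only [Prod.fst_zero, Prod.snd_zero] at h h'
      have h1 : (N ^ (i + 1)) y.1.1 = -(((i + 1 : ℕ) : K) • (N ^ i) y.1.2) :=
        eq_neg_of_add_eq_zero_left h.symm
      have h2 : N ((N ^ i) y.1.2) = (N ^ (i + 1)) y.1.2 := by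
        rw [pow_succ' N i, Module.End.mul_apply]
      rw [LinearMap.mem_ker, pow_succ' N (i + 1), Module.End.mul_apply, h1, map_neg, map_smul, h2,
        ← h', smul_zero, neg_zero]⟩,
    ⟨y.1.2 + (((i + 1 : ℕ) : K)⁻¹) • N y.1.1, by
      have h := congrArg Prod.fst ((LinearMap.mem_ker.1 y.2).symm.trans (tN_pow N i y.1))
      simp only [Prod.fst_zero] at h
      have h1 : (N ^ (i + 1)) y.1.1 = -(((i + 1 : ℕ) : K) • (N ^ i) y.1.2) :=
        eq_neg_of_add_eq_zero_left h.symm
      have h2 : (N ^ i) (N y.1.1) = (N ^ (i + 1)) y.1.1 := by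
        rw [pow_succ N i, Module.End.mul_apply]
      have hc : ((i + 1 : ℕ) : K) ≠ 0 := by exact_mod_cast Nat.succ_ne_zero i
      rw [LinearMap.mem_ker, map_add, map_smul, h2, h1, smul_neg, smul_smul, inv_mul_cancel₀ hc,
        one_smul, add_neg_cancel]⟩)
  left_inv x := by
    refine Prod.ext rfl ?_
    apply Subtype.ext
    show (-((((i + 1 : ℕ) : K)⁻¹) • N (x.1 : V)) + (x.2 : V)) +
      (((i + 1 : ℕ) : K)⁻¹) • N (x.1 : V) = (x.2 : V)
    abel
  right_inv y := by
    apply Subtype.ext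
    refine Prod.ext rfl ?_
    show -((((i + 1 : ℕ) : K)⁻¹) • N y.1.1) + (y.1.2 + (((i + 1 : ℕ) : K)⁻¹) • N y.1.1) = y.1.2
    abel

/-- the trace on the kernel of a power of `tN N` -/
lemma trOn_tN [FiniteDimensional K V] {N A : Module.End K V} {c : K}
    (h : N * A = c • (A * N)) (i : ℕ) :
    trOn (LinearMap.prodMap A (c • A)) (LinearMap.ker (tN N ^ (i + 1))) =
      trOn A (LinearMap.ker (N ^ (i + 2))) + c * trOn A (LinearMap.ker (N ^ i)) := by
  have hpow : ∀ j : ℕ, N ^ j * A = (c ^ j) • (A * N ^ j) := by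
    intro j
    induction j with
    | zero => simp
    | succ j ih =>
      rw [pow_succ', mul_assoc, ih, mul_smul_comm, ← mul_assoc, h, smul_mul_assoc, smul_smul,
        mul_assoc, ← pow_succ]
  have hst : ∀ j : ℕ, ∀ v ∈ LinearMap.ker (N ^ j), A v ∈ LinearMap.ker (N ^ j) := by
    intro j v hv
    rw [LinearMap.mem_ker] at hv ⊢
    rw [← Module.End.mul_apply, hpow, LinearMap.smul_apply, Module.End.mul_apply, hv, map_zero,
      smul_zero]
  have hst' : ∀ v ∈ LinearMap.ker (N ^ i), (c • A) v ∈ LinearMap.ker (N ^ i) :=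
    fun v hv => (LinearMap.ker (N ^ i)).smul_mem c (hst i v hv)
  have hNA : ∀ v, N (A v) = c • A (N v) := fun v => by
    rw [← Module.End.mul_apply, h, LinearMap.smul_apply, Module.End.mul_apply]
  have hcomm : tN N * LinearMap.prodMap A (c • A) = c • (LinearMap.prodMap A (c • A) * tN N) := by
    apply LinearMap.ext
    intro v
    show (N (A v.1) + c • A v.2, N (c • A v.2)) = c • (A (N v.1 + v.2), c • A (N v.2))
    rw [map_smul, hNA, hNA, map_add, Prod.smul_mk, smul_add]
  have hpow2 : ∀ j : ℕ, tN N ^ j * LinearMap.prodMap A (c • A) =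
      (c ^ j) • (LinearMap.prodMap A (c • A) * tN N ^ j) := by
    intro j
    induction j with
    | zero => simp
    | succ j ih =>
      rw [pow_succ', mul_assoc, ih, mul_smul_comm, ← mul_assoc, hcomm, smul_mul_assoc, smul_smul,
        mul_assoc, ← pow_succ]
  have hst2 : ∀ v ∈ LinearMap.ker (tN N ^ (i + 1)),
      LinearMap.prodMap A (c • A) v ∈ LinearMap.ker (tN N ^ (i + 1)) := by
    intro v hv
    rw [LinearMap.mem_ker] at hv ⊢
    rw [← Module.End.mul_apply, hpow2, LinearMap.smul_apply, Module.End.mul_apply, hv, map_zero,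
      smul_zero]
  rw [← trOn_smul c (hst i), trOn_eq (hst (i + 2)), trOn_eq hst', ← LinearMap.trace_prodMap']
  refine trOn_of_equiv hst2 (theta N i).symm _ fun y => ?_
  apply (theta N i).injective
  rw [LinearEquiv.apply_symm_apply]
  obtain ⟨x, rfl⟩ := (theta N i).surjective y
  rw [LinearEquiv.symm_apply_apply]
  apply Subtype.ext
  refine Prod.ext rfl ?_
  show c • A (-((((i + 1 : ℕ) : K)⁻¹) • N (x.1 : V)) + (x.2 : V)) =
    -((((i + 1 : ℕ) : K)⁻¹) • N (A (x.1 : V))) + c • A (x.2 : V)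
  rw [hNA, map_add, map_neg, map_smul, smul_add, smul_neg, smul_comm c]

end lin

end Pool.Agent.Q219.WD
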