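import Pool.Agent.Q219.WD.Tate

/-!
# The Weil-Deligne representation of a tensor product with the cohomology of an elliptic curve with
split multiplicative reduction
-/

set_option autoImplicit false
set_option linter.unusedSectionVars false

open Polynomial TensorProduct

namespace Pool.Agent.Q219.WD

open Pool.Agent.Q187.IL Pool.Agent.Q226.IL

section lin

variable {K V W : Type} [Field K] [CharZero K] [AddCommGroup V] [Module K V]
  [AddCommGroup W] [Module K W]

lemma expN_tN [FiniteDimensional K V] {N : Module.End K V} (hN : IsNilpotent N) (s : K)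
    (v : V × V) :
    expN (tN N) s v = (expN N s v.1 + s • expN N s v.2, expN N s v.2) := by
  set m := max (Module.finrank K V + 1) (Module.finrank K (V × V) + 1) with hm
  have h1 : expN (tN N) s v = ∑ k ∈ Finset.range (m + 1),
      (((k.factorial : K)⁻¹ * s ^ k) • (tN N ^ k) v) := by
    rw [expN_of_le (tN_nilpotent hN) s ((le_max_right _ _).trans (Nat.le_succ m)),
      LinearMap.sum_apply]
    rfl
  have h2 : ∀ w, expN N s w = ∑ k ∈ Finset.range (m + 1),
      (((k.factorial : K)⁻¹ * s ^ k) • (N ^ k) w) := fun w => by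
    rw [expN_of_le hN s ((le_max_left _ _).trans (Nat.le_succ m)), LinearMap.sum_apply]
    rfl
  have h3 : ∀ w, expN N s w = ∑ k ∈ Finset.range m,
      (((k.factorial : K)⁻¹ * s ^ k) • (N ^ k) w) := fun w => by
    rw [expN_of_le hN s (le_max_left _ _ : _ ≤ m), LinearMap.sum_apply]
    rfl
  have h4 : ∀ k : ℕ, (((k + 1).factorial : K)⁻¹ * s ^ (k + 1)) * ((k + 1 : ℕ) : K) =
      s * ((k.factorial : K)⁻¹ * s ^ k) := by
    intro k
    have hk : ((k + 1 : ℕ) : K) ≠ 0 := by exact_mod_cast Nat.succ_ne_zero k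
    have hf : (k.factorial : K) ≠ 0 := by exact_mod_cast Nat.factorial_ne_zero k
    rw [Nat.factorial_succ, Nat.cast_mul, mul_inv]
    have e : (((k + 1 : ℕ) : K)⁻¹ * (k.factorial : K)⁻¹ * s ^ (k + 1)) * ((k + 1 : ℕ) : K) =
        (((k + 1 : ℕ) : K)⁻¹ * ((k + 1 : ℕ) : K)) * ((k.factorial : K)⁻¹ * s ^ (k + 1)) := by ring
    rw [e, inv_mul_cancel₀ hk, one_mul, pow_succ]
    ring
  rw [h1, Finset.sum_range_succ', h2 v.1, Finset.sum_range_succ' _ m, h2 v.2,
    Finset.sum_range_succ' (fun k => ((k.factorial : K)⁻¹ * s ^ k) • (N ^ k) v.2) m]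
  refine Prod.ext ?_ ?_
  · have h5 : s • ((∑ k ∈ Finset.range m, (((k + 1).factorial : K)⁻¹ * s ^ (k + 1)) •
        (N ^ (k + 1)) v.2) + ((Nat.factorial 0 : K)⁻¹ * s ^ 0) • (N ^ 0) v.2) =
        ∑ k ∈ Finset.range m, ((((k + 1).factorial : K)⁻¹ * s ^ (k + 1)) * ((k + 1 : ℕ) : K)) •
          (N ^ k) v.2 := by
      rw [← Finset.sum_range_succ' (fun k => ((k.factorial : K)⁻¹ * s ^ k) • (N ^ k) v.2) m,
        ← h2, h3, Finset.smul_sum]
      refine Finset.sum_congr rfl fun k _ => ?_
      rw [smul_smul, h4]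
    simp only [Prod.fst_add, Prod.fst_sum, Prod.smul_fst]
    rw [h5]
    simp only [tN_pow, smul_add, Finset.sum_add_distrib, smul_smul]
    simp only [pow_zero, Module.End.one_apply]
    abel
  · simp only [Prod.snd_add, Prod.snd_sum, Prod.smul_snd, tN_pow]
    simp only [pow_zero, Module.End.one_apply]

/-- the coordinates with respect to a basis `b₀, b₁` of the second factor -/
noncomputable def coords (b : Module.Basis (Fin 2) K W) : V ⊗[K] W ≃ₗ[K] V × V :=
  (TensorProduct.equivFinsuppOfBasisRight b).trans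
    ((Finsupp.linearEquivFunOnFinite K V (Fin 2)).trans (LinearEquiv.finTwoArrow K V))

lemma coords_tmul (b : Module.Basis (Fin 2) K W) (v : V) (w : W) :
    coords b (v ⊗ₜ[K] w) = (b.repr w 0 • v, b.repr w 1 • v) := by
  refine Prod.ext ?_ ?_
  · show TensorProduct.equivFinsuppOfBasisRight b (v ⊗ₜ[K] w) 0 = _
    rw [TensorProduct.equivFinsuppOfBasisRight_apply_tmul_apply]
  · show TensorProduct.equivFinsuppOfBasisRight b (v ⊗ₜ[K] w) 1 = _
    rw [TensorProduct.equivFinsuppOfBasisRight_apply_tmul_apply]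

lemma coords_map (b : Module.Basis (Fin 2) K W) (A : V →ₗ[K] V) {S : W →ₗ[K] W} {c d : K}
    (h0 : S (b 0) = b 0) (h1 : S (b 1) = d • b 1 + c • b 0) (x : V ⊗[K] W) :
    coords b (TensorProduct.map A S x) =
      (A (coords b x).1 + c • A (coords b x).2, d • A (coords b x).2) := by
  induction x using TensorProduct.induction_on with
  | zero =>
    simp only [map_zero, Prod.fst_zero, Prod.snd_zero, smul_zero, add_zero]
    rfl
  | tmul v w =>
    have hw : w = b.repr w 0 • b 0 + b.repr w 1 • b 1 := by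
      conv_lhs => rw [← b.sum_repr w]
      rw [Fin.sum_univ_two]
    have hS : S w = (b.repr w 0 + b.repr w 1 * c) • b 0 + (b.repr w 1 * d) • b 1 := by
      conv_lhs => rw [hw]
      rw [map_add, map_smul, map_smul, h0, h1, smul_add, smul_smul, smul_smul]
      module
    have e0 : b.repr (S w) 0 = b.repr w 0 + b.repr w 1 * c := by
      rw [hS]
      simp
    have e1 : b.repr (S w) 1 = b.repr w 1 * d := by
      rw [hS]
      simp
    rw [TensorProduct.map_tmul, coords_tmul, coords_tmul, e0, e1]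
    simp only [map_smul]
    refine Prod.ext ?_ ?_
    · simp only
      rw [add_smul, smul_smul, mul_comm c]
    · simp only
      rw [smul_smul, mul_comm d]
  | add x y hx hy =>
    rw [map_add, map_add, map_add, hx, hy]
    simp only [Prod.fst_add, Prod.snd_add, map_add, smul_add]
    refine Prod.ext ?_ ?_
    · simp only [Prod.mk_add_mk]
      abel
    · simp only [Prod.mk_add_mk]

end lin

section transport

variable {G K V V' : Type} [Group G] [TopologicalSpace G] [Field K] [CharZero K]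
  [AddCommGroup V] [Module K V] [FiniteDimensional K V] [AddCommGroup V'] [Module K V']
  [FiniteDimensional K V'] {p : ℕ} {I : Subgroup G} {F : G} {t : G → K}

/-- transport of an endomorphism -/
def cEnd (e : V' ≃ₗ[K] V) (N : Module.End K V) : Module.End K V' :=
  e.symm.toLinearMap ∘ₗ N ∘ₗ e.toLinearMap

lemma cEnd_apply (e : V' ≃ₗ[K] V) (N : Module.End K V) (v : V') :
    cEnd e N v = e.symm (N (e v)) := rfl

lemma cEnd_mul (e : V' ≃ₗ[K] V) (A B : Module.End K V) : cEnd e (A * B) = cEnd e A * cEnd e B := by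
  ext v
  simp [cEnd_apply]

lemma cEnd_one (e : V' ≃ₗ[K] V) : cEnd e 1 = 1 := by
  ext v
  simp [cEnd_apply]

lemma cEnd_smul (e : V' ≃ₗ[K] V) (c : K) (A : Module.End K V) : cEnd e (c • A) = c • cEnd e A := by
  ext v
  simp [cEnd_apply]

lemma cEnd_pow (e : V' ≃ₗ[K] V) (A : Module.End K V) (k : ℕ) : cEnd e (A ^ k) = cEnd e A ^ k := by
  induction k with
  | zero => rw [pow_zero, pow_zero, cEnd_one]
  | succ k ih => rw [pow_succ, pow_succ, cEnd_mul, ih]

lemma cEnd_expN (e : V' ≃ₗ[K] V) (A : Module.End K V) (s : K) :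
    cEnd e (expN A s) = expN (cEnd e A) s := by
  rw [expN, expN, e.finrank_eq]
  ext v
  rw [cEnd_apply, LinearMap.sum_apply, map_sum, LinearMap.sum_apply]
  refine Finset.sum_congr rfl fun k _ => ?_
  rw [LinearMap.smul_apply, LinearMap.smul_apply, map_smul, ← cEnd_pow, cEnd_apply]

/-- transport of a representation -/
def cRep (e : V' ≃ₗ[K] V) (r : Representation K G V) : Representation K G V' where
  toFun g := cEnd e (r g)
  map_one' := by rw [map_one, cEnd_one]
  map_mul' g h := by rw [map_mul, cEnd_mul]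

lemma cRep_apply (e : V' ≃ₗ[K] V) (r : Representation K G V) (g : G) :
    cRep e r g = cEnd e (r g) := rfl

lemma Attached.transport {ρ r : Representation K G V} {N : Module.End K V}
    {ρ' : Representation K G V'} (e : V' ≃ₗ[K] V) (he : ∀ g v, e (ρ' g v) = ρ g (e v))
    (h : Attached p I F t ρ r N) : Attached p I F t ρ' (cRep e r) (cEnd e N) := by
  have hker : MonoidHom.ker r ≤ MonoidHom.ker (cRep e r) := fun g hg => by
    rw [MonoidHom.mem_ker] at hg ⊢
    rw [cRep_apply, hg, cEnd_one]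
  have hker' : MonoidHom.ker (cRep e r) = MonoidHom.ker r := by
    refine le_antisymm (fun g hg => ?_) hker
    rw [MonoidHom.mem_ker] at hg ⊢
    apply LinearMap.ext
    intro v
    obtain ⟨w, rfl⟩ := e.surjective v
    have h1 := LinearMap.congr_fun hg w
    rw [cRep_apply, cEnd_apply, Module.End.one_apply, LinearEquiv.symm_apply_eq] at h1
    exact h1
  have hρ : ∀ g, ρ' g = cEnd e (ρ g) := fun g => by
    ext v
    rw [cEnd_apply, ← he, LinearEquiv.symm_apply_apply]
  refine ⟨?_, ?_, ?_, ?_, ?_, ?_⟩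
  · obtain ⟨n, hn⟩ := h.nilpotent
    refine ⟨n, ?_⟩
    rw [← cEnd_pow, hn]
    ext v
    simp [cEnd_apply]
  · rw [hker']
    exact h.isOpen
  · rw [hker']
    exact h.finite
  · intro g hg
    rw [cRep_apply, ← cEnd_mul, ← cEnd_mul, h.inertia g hg]
  · rw [cRep_apply, ← cEnd_mul, ← cEnd_mul, h.frob, cEnd_smul]
  · intro n g hg
    rw [hρ, h.exp n g hg, cEnd_mul, cEnd_expN]
    rfl

lemma trOn_transport (e : V' ≃ₗ[K] V) {A N : Module.End K V} (j : ℕ)
    (h : ∀ v ∈ LinearMap.ker (N ^ j), A v ∈ LinearMap.ker (N ^ j)) :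
    trOn (cEnd e A) (LinearMap.ker (cEnd e N ^ j)) = trOn A (LinearMap.ker (N ^ j)) := by
  have hmem : ∀ v, v ∈ LinearMap.ker (cEnd e N ^ j) ↔ e v ∈ LinearMap.ker (N ^ j) := by
    intro v
    rw [LinearMap.mem_ker, LinearMap.mem_ker, ← cEnd_pow, cEnd_apply, LinearEquiv.map_eq_zero_iff]
  let E : LinearMap.ker (cEnd e N ^ j) ≃ₗ[K] LinearMap.ker (N ^ j) :=
    { toFun := fun v => ⟨e v, (hmem v).1 v.2⟩
      map_add' := fun v w => Subtype.ext (map_add _ _ _)
      map_smul' := fun c v => Subtype.ext (map_smul _ _ _)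
      invFun := fun v => ⟨e.symm v, (hmem _).2 (by rw [e.apply_symm_apply]; exact v.2)⟩
      left_inv := fun v => Subtype.ext (e.symm_apply_apply _)
      right_inv := fun v => Subtype.ext (e.apply_symm_apply _) }
  refine trOn_of_equiv' (fun v hv => (hmem _).2 ?_) h E fun v => ?_
  · rw [cEnd_apply, e.apply_symm_apply]
    exact h _ ((hmem v).1 hv)
  · show e (e.symm (A (e v))) = A (e v)
    rw [e.apply_symm_apply]

end transport

section tate

variable {G K V V' W : Type} [Group G] [TopologicalSpace G] [Field K] [CharZero K]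
  [AddCommGroup V] [Module K V] [FiniteDimensional K V] [AddCommGroup V'] [Module K V']
  [FiniteDimensional K V'] [AddCommGroup W] [Module K W] [FiniteDimensional K W]
  {p : ℕ} {I : Subgroup G} {F : G} {t : G → K}
  {ρ r : Representation K G V} {N : Module.End K V} {ρ' : Representation K G V'}
  {s : Representation K G W}

/-- the degree -/
noncomputable def degHom [I.Normal] (hG : IsWeilGroup I F) : G →* Multiplicative ℤ where
  toFun x := Multiplicative.ofAdd (Classical.choose (hG.mk_eq x))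
  map_one' := by
    have h := Classical.choose_spec (hG.mk_eq (1 : G))
    rw [← ofAdd_zero]
    congr 1
    refine hG.zpow_inj ?_
    rw [← h, zpow_zero, QuotientGroup.mk_one]
  map_mul' x y := by
    rw [← ofAdd_add]
    congr 1
    refine hG.zpow_inj ?_
    rw [← Classical.choose_spec (hG.mk_eq (x * y)), zpow_add,
      ← Classical.choose_spec (hG.mk_eq x), ← Classical.choose_spec (hG.mk_eq y),
      QuotientGroup.mk_mul]

lemma degHom_eq [I.Normal] (hG : IsWeilGroup I F) (n : ℤ) {g : G} (hg : g ∈ I) :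
    degHom hG (F ^ n * g) = Multiplicative.ofAdd n := by
  show Multiplicative.ofAdd _ = _
  congr 1
  refine hG.zpow_inj ?_
  rw [← Classical.choose_spec (hG.mk_eq (F ^ n * g)), QuotientGroup.mk_mul,
    QuotientGroup.mk_zpow, (QuotientGroup.eq_one_iff g).2 hg, mul_one]

/-- the character `σ ↦ p ^ (deg σ)` -/
noncomputable def chr [I.Normal] (hG : IsWeilGroup I F) (K : Type) [Field K] [CharZero K] {p : ℕ}
    (hp : p ≠ 0) : G →* Kˣ :=
  (zpowersHom Kˣ (Units.mk0 (p : K) (by exact_mod_cast hp))).comp (degHom hG)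

lemma chr_eq [I.Normal] (hG : IsWeilGroup I F) (hp : p ≠ 0) (n : ℤ) {g : G} (hg : g ∈ I) :
    ((chr hG K hp (F ^ n * g) : Kˣ) : K) = (p : K) ^ n := by
  rw [chr, MonoidHom.comp_apply, degHom_eq hG n hg, zpowersHom_apply, toAdd_ofAdd,
    Units.val_zpow_eq_zpow_val, Units.val_mk0]

/-- the representation `r ⊕ r χ` -/
def tRep (r : Representation K G V) (χ : G →* Kˣ) : Representation K G (V × V) where
  toFun g := LinearMap.prodMap (r g) (((χ g : Kˣ) : K) • r g)
  map_one' := by
    apply LinearMap.ext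
    intro v
    simp
  map_mul' g h := by
    apply LinearMap.ext
    intro v
    refine Prod.ext ?_ ?_
    · show r (g * h) v.1 = r g (r h v.1)
      rw [map_mul]
      rfl
    · show ((χ (g * h) : Kˣ) : K) • r (g * h) v.2 =
        ((χ g : Kˣ) : K) • r g (((χ h : Kˣ) : K) • r h v.2)
      rw [map_mul, map_mul, Units.val_mul, map_smul, smul_smul]
      rfl

lemma tRep_apply (r : Representation K G V) (χ : G →* Kˣ) (g : G) (v : V × V) :
    tRep r χ g v = (r g v.1, ((χ g : Kˣ) : K) • r g v.2) := rfl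

/-- the Weil-Deligne representation of a representation on `V × V` -/
lemma attached_tate [I.Normal] [IsTopologicalGroup G] (hp : p ≠ 0) (hG : IsWeilGroup I F)
    (h : Attached p I F t ρ r N) {ρ₂ : Representation K G (V × V)}
    (h2 : ∀ (n : ℤ), ∀ g ∈ I, ∀ v, ρ₂ (F ^ n * g) v = (ρ (F ^ n * g) v.1 +
      t g • ρ (F ^ n * g) v.2, (p : K) ^ n • ρ (F ^ n * g) v.2)) :
    Attached p I F t ρ₂ (tRep r (chr hG K hp)) (tN N) := by
  have hχI : ∀ g ∈ I, ((chr hG K hp g : Kˣ) : K) = 1 := fun g hg => by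
    have := chr_eq (K := K) hG hp 0 hg
    simpa using this
  have hχF : ((chr hG K hp F : Kˣ) : K) = p := by
    have := chr_eq (K := K) hG hp 1 I.one_mem
    simpa using this
  have hker : MonoidHom.ker r ⊓ I ≤ MonoidHom.ker (tRep r (chr hG K hp)) := by
    rintro g ⟨hg1, hg2⟩
    rw [MonoidHom.mem_ker]
    apply LinearMap.ext
    intro v
    rw [tRep_apply, hχI g hg2, one_smul, MonoidHom.mem_ker.1 hg1]
    rfl
  refine ⟨tN_nilpotent h.nilpotent, ?_, ?_, ?_, ?_, ?_⟩
  · refine Subgroup.isOpen_mono hker ?_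
    exact h.isOpen.inter hG.isOpen
  · intro h0
    have h3 := Subgroup.relIndex_dvd_of_le_left I hker
    rw [h0, Subgroup.inf_relIndex_right] at h3
    exact h.finite (Nat.eq_zero_of_zero_dvd h3)
  · intro g hg
    apply LinearMap.ext
    intro v
    have h3 : ∀ w, N (r g w) = r g (N w) := fun w => LinearMap.congr_fun (h.inertia g hg) w
    show tN N (tRep r (chr hG K hp) g v) = tRep r (chr hG K hp) g (tN N v)
    rw [tN_apply, tRep_apply, tRep_apply, tN_apply, hχI g hg]
    simp only [one_smul, map_add, h3]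
  · apply LinearMap.ext
    intro v
    have h3 : ∀ w, N (r F w) = (p : K) • r F (N w) := fun w => LinearMap.congr_fun h.frob w
    show tN N (tRep r (chr hG K hp) F v) = (p : K) • tRep r (chr hG K hp) F (tN N v)
    rw [tN_apply, tRep_apply, tRep_apply, tN_apply, hχF]
    simp only [map_add, map_smul, h3, Prod.smul_mk, smul_add]
  · intro n g hg
    apply LinearMap.ext
    intro v
    rw [h2 n g hg, Module.End.mul_apply, expN_tN h.nilpotent, tRep_apply, chr_eq hG hp n hg,
      h.exp n g hg]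
    simp only [map_add, map_smul, Module.End.mul_apply]

/-- **Tensor products with `H^1` of an elliptic curve with split multiplicative reduction.** -/
theorem tate_step [I.Normal] [IsTopologicalGroup G] (hp : p ≠ 0) (hG : IsWeilGroup I F)
    (h : Attached p I F t ρ r N) (hE : IsTensorOf ρ' ρ s)
    (b : Module.Basis (Fin 2) K W) (hb0 : s F (b 0) = b 0) (hb1 : s F (b 1) = (p : K) • b 1)
    (hI : ∀ g ∈ I, s g (b 0) = b 0 ∧ s g (b 1) = b 1 + t g • b 0) :
    ∃ (r' : Representation K G V') (N' : Module.End K V'), Attached p I F t ρ' r' N' ∧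
      ∀ (n : ℕ), ∀ g ∈ I, ∀ i : ℕ,
        trOn (r' (F ^ n * g)) (LinearMap.ker (N' ^ (i + 1))) =
          trOn (r (F ^ n * g)) (LinearMap.ker (N ^ (i + 2))) +
            (p : K) ^ n * trOn (r (F ^ n * g)) (LinearMap.ker (N ^ i)) := by
  obtain ⟨e, he⟩ := hE
  have hp0 : (p : K) ≠ 0 := by exact_mod_cast hp
  -- powers of Frobenius on the basis
  have hF0 : ∀ n : ℤ, s (F ^ n) (b 0) = b 0 := by
    let S : Subgroup G :=
      { carrier := {g | s g (b 0) = b 0}
        mul_mem' := fun {x y} hx hy => by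
          show s (x * y) (b 0) = b 0
          rw [map_mul, Module.End.mul_apply, hy, hx]
        one_mem' := by
          show s 1 (b 0) = b 0
          rw [map_one, Module.End.one_apply]
        inv_mem' := fun {x} hx => by
          show s x⁻¹ (b 0) = b 0
          have h1 : s x⁻¹ (s x (b 0)) = b 0 := by
            rw [← Module.End.mul_apply, ← map_mul, inv_mul_cancel, map_one, Module.End.one_apply]
          rwa [hx] at h1 }
    exact fun n => S.zpow_mem (x := F) hb0 n
  have hF1n : ∀ n : ℕ, s (F ^ n) (b 1) = (p : K) ^ n • b 1 := by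
    intro n
    induction n with
    | zero => simp
    | succ n ih =>
      rw [pow_succ', map_mul, Module.End.mul_apply, ih, map_smul, hb1, smul_smul, ← pow_succ]
  have hF1 : ∀ n : ℤ, s (F ^ n) (b 1) = (p : K) ^ n • b 1 := by
    intro n
    obtain ⟨k, rfl | rfl⟩ := n.eq_nat_or_neg
    · rw [zpow_natCast, zpow_natCast, hF1n]
    · have h1 : s (F ^ (-(k : ℤ))) (s (F ^ k) (b 1)) = b 1 := by
        rw [← Module.End.mul_apply, ← map_mul, zpow_neg, zpow_natCast, inv_mul_cancel, map_one,
          Module.End.one_apply]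
      rw [hF1n, map_smul] at h1
      have h2 : ((p : K) ^ k)⁻¹ • ((p : K) ^ k • s (F ^ (-(k : ℤ))) (b 1)) =
          ((p : K) ^ k)⁻¹ • b 1 := by rw [h1]
      rw [smul_smul, inv_mul_cancel₀ (pow_ne_zero k hp0), one_smul] at h2
      rw [h2, zpow_neg, zpow_natCast]
  let E : V' ≃ₗ[K] V × V := e.trans (coords b)
  have hE' : ∀ (n : ℤ), ∀ g ∈ I, ∀ v, E (ρ' (F ^ n * g) v) = (ρ (F ^ n * g) (E v).1 +
      t g • ρ (F ^ n * g) (E v).2, (p : K) ^ n • ρ (F ^ n * g) (E v).2) := by
    intro n g hg v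
    have h0 : s (F ^ n * g) (b 0) = b 0 := by
      rw [map_mul, Module.End.mul_apply, (hI g hg).1, hF0]
    have h1 : s (F ^ n * g) (b 1) = (p : K) ^ n • b 1 + t g • b 0 := by
      rw [map_mul, Module.End.mul_apply, (hI g hg).2, map_add, map_smul, hF0, hF1]
    show coords b (e (ρ' (F ^ n * g) v)) = _
    rw [he, coords_map b _ h0 h1]
    rfl
  let ρ₂ : Representation K G (V × V) := cRep E.symm ρ'
  have hρ₂ : ∀ g v, E (ρ' g v) = ρ₂ g (E v) := by
    intro g v
    show E (ρ' g v) = E.symm.symm (ρ' g (E.symm (E v)))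
    rw [E.symm_apply_apply]
    rfl
  have h2 : ∀ (n : ℤ), ∀ g ∈ I, ∀ v, ρ₂ (F ^ n * g) v = (ρ (F ^ n * g) v.1 +
      t g • ρ (F ^ n * g) v.2, (p : K) ^ n • ρ (F ^ n * g) v.2) := by
    intro n g hg v
    obtain ⟨w, rfl⟩ := E.surjective v
    rw [← hρ₂, hE' n g hg]
  have h3 := attached_tate hp hG h h2
  refine ⟨cRep E (tRep r (chr hG K hp)), cEnd E (tN N), h3.transport E hρ₂, fun n g hg i => ?_⟩
  have hχ : ((chr hG K hp (F ^ n * g) : Kˣ) : K) = (p : K) ^ n := by
    have := chr_eq (K := K) hG hp (n : ℤ) hg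
    rwa [zpow_natCast, zpow_natCast] at this
  rw [cRep_apply, trOn_transport E (i + 1) (h3.stable n hg (i + 1))]
  have h4 : tRep r (chr hG K hp) (F ^ n * g) =
      LinearMap.prodMap (r (F ^ n * g)) ((p : K) ^ n • r (F ^ n * g)) := by
    rw [← hχ]
    rfl
  rw [h4]
  exact trOn_tN (h.comm n hg) i

end tate

end Pool.Agent.Q219.WD
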