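import Pool.Agent.Q219.WD.Uniq
import Pool.Agent.Q219.WD.Pure
import Pool.Agent.Q219.WD.Pow

/-!
# The weight-monodromy conjecture and the traces on the kernels of the powers of `N`
-/

set_option autoImplicit false
set_option linter.unusedSectionVars false

open Polynomial

namespace Pool.Agent.Q219.WD

open Pool.Agent.Q187.IL
open Pool.Agent.Q226.IL (expN ev ev_X ev_C ev_comm wt Mixed MonodromyWeight Killed IsProjTo PureWt
  exists_proj N_wt killed_of_traces exists_section Quo trace_rho)

section lin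

variable {K V : Type} [Field K] [CharZero K] [AddCommGroup V] [Module K V]
  [FiniteDimensional K V] {q : ℕ} {S : Finset ℤ} {g : ℤ → ℚ[X]} {Φ N A : Module.End K V} {w : ℤ}

lemma stable_of_comm' {L : Module.End K V} {c : K} (h : L * A = c • (A * L)) :
    ∀ v ∈ LinearMap.ker L, A v ∈ LinearMap.ker L := by
  intro v hv
  rw [LinearMap.mem_ker] at hv ⊢
  rw [← Module.End.mul_apply, h, LinearMap.smul_apply, Module.End.mul_apply, hv, map_zero,
    smul_zero]

lemma proj_pow (hq : 2 ≤ q) (hK : Killed q S g Φ) (hN : N * Φ = (q : K) • (Φ * N)) (j : ℕ) {b : ℤ}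
    {P P' : ℚ[X]} (hP : IsProjTo q Φ b P) (hP' : IsProjTo q Φ (b - 2 * j) P') :
    ev Φ P' * N ^ j = N ^ j * ev Φ P := by
  refine hK.ext hq fun a v hv => ?_
  rw [Module.End.mul_apply, Module.End.mul_apply]
  by_cases ha : a ≤ b
  · rw [hP.le a ha v hv, hP'.le (a - 2 * j) (by omega) _ (N_wt_pow hq hN j hv)]
  · rw [hP.gt a (by omega) v hv, hP'.gt (a - 2 * j) (by omega) _ (N_wt_pow hq hN j hv), map_zero]

lemma ker_pow (hq : 2 ≤ q) (hK : Killed q S g Φ) (hN : N * Φ = (q : K) • (Φ * N))
    (hM : MonodromyWeight q w Φ N) (j : ℕ) {P : ℚ[X]} (hP : IsProjTo q Φ (w + j - 1) P) {v : V}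
    (hv : (N ^ j) v = 0) : ev Φ P v = v := by
  choose Q hQ' using fun M : ℤ => exists_proj hq S g hK.pure M
  have hQ : ∀ M, IsProjTo q Φ M (Q M) := fun M => hQ' M K V Φ hK
  set b : ℤ := w + j - 1 with hb
  have h0 : ev Φ P = ev Φ (Q b) := by
    refine hK.ext hq fun a v hv => ?_
    by_cases ha : a ≤ b
    · rw [hP.le a ha v hv, (hQ b).le a ha v hv]
    · rw [hP.gt a (by omega) v hv, (hQ b).gt a (by omega) v hv]
  have step : ∀ n : ℕ, ev Φ (Q (b + n)) v = ev Φ (Q b) v := by
    intro n
    induction n with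
    | zero => simp
    | succ n ih =>
      rw [← ih]
      set M : ℤ := b + n with hMdef
      have hM1 : (b + ((n + 1 : ℕ) : ℤ)) = M + 1 := by push_cast; omega
      rw [hM1]
      have hD : ∀ u, (ev Φ (Q (M + 1)) - ev Φ (Q M)) u ∈ wt q Φ (M + 1) := by
        intro u
        refine hK.induction hq (p := fun u => (ev Φ (Q (M + 1)) - ev Φ (Q M)) u ∈ wt q Φ (M + 1)) u
          (fun a u hu => ?_) (by rw [map_zero]; exact Submodule.zero_mem _) (fun a b ha hb => ?_)
        · rw [LinearMap.sub_apply]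
          rcases lt_trichotomy a (M + 1) with h | h | h
          · rw [(hQ (M + 1)).le a h.le u hu, (hQ M).le a (by omega) u hu, sub_self]
            exact Submodule.zero_mem _
          · subst h
            rw [(hQ (M + 1)).le _ le_rfl u hu, (hQ M).gt _ (by omega) u hu, sub_zero]
            exact hu
          · rw [(hQ (M + 1)).gt a h u hu, (hQ M).gt a (by omega) u hu, sub_self]
            exact Submodule.zero_mem _
        · rw [map_add]
          exact Submodule.add_mem _ ha hb
      have hND : (N ^ j) ((ev Φ (Q (M + 1)) - ev Φ (Q M)) v) = 0 := by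
        rw [LinearMap.sub_apply, map_sub, ← Module.End.mul_apply, ← Module.End.mul_apply,
          ← proj_pow hq hK hN j (hQ (M + 1)) (hQ (M + 1 - 2 * j)),
          ← proj_pow hq hK hN j (hQ M) (hQ (M - 2 * j)),
          Module.End.mul_apply, Module.End.mul_apply, hv, map_zero, map_zero, sub_zero]
      have hk := hM (j + n)
      have e1 : w + ((j + n : ℕ) : ℤ) = M + 1 := by
        rw [hMdef, hb]
        push_cast
        ring
      rw [e1] at hk
      have h1 : (ev Φ (Q (M + 1)) - ev Φ (Q M)) v = 0 := by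
        refine hk.injOn (hD v) (Submodule.zero_mem _) ?_
        rw [add_comm j n, pow_add, Module.End.mul_apply, hND, map_zero, map_zero]
      rw [LinearMap.sub_apply, sub_eq_zero] at h1
      exact h1
  obtain ⟨n, hn⟩ : ∃ n : ℕ, ∀ a ∈ S, a ≤ b + n := by
    refine ⟨(∑ a ∈ S, (a - b).natAbs), fun a ha => ?_⟩
    have h1 : (a - b).natAbs ≤ ∑ a ∈ S, (a - b).natAbs :=
      Finset.single_le_sum (f := fun a => (a - b).natAbs) (fun _ _ => Nat.zero_le _) ha
    omega
  have h1 : ev Φ (Q (b + n)) = 1 := by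
    refine hK.ext hq fun a u hu => ?_
    by_cases ha : a ≤ b + n
    · rw [(hQ _).le a ha u hu, Module.End.one_apply]
    · have : u = 0 := hK.eq_zero hq (fun h => ha (hn a h)) hu
      rw [this, map_zero, map_zero]
  rw [h0, ← step n, h1, Module.End.one_apply]

lemma range_pow (hq : 2 ≤ q) (hK : Killed q S g Φ) (hM : MonodromyWeight q w Φ N) (j : ℕ)
    {P : ℚ[X]} (hP : IsProjTo q Φ (w - j - 1) P) (v : V) :
    ev Φ P v ∈ LinearMap.range (N ^ j) := by
  refine hK.induction hq (p := fun v => ev Φ P v ∈ LinearMap.range (N ^ j)) v (fun a u hu => ?_)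
    (by rw [map_zero]; exact Submodule.zero_mem _) (fun a b ha hb => ?_)
  · by_cases ha : a ≤ w - j - 1
    · rw [hP.le a ha u hu]
      obtain ⟨n, hn⟩ : ∃ n : ℕ, a = w - ((j + n : ℕ) : ℤ) := by
        refine ⟨(w - j - a).toNat, ?_⟩
        push_cast
        omega
      subst hn
      obtain ⟨x, -, hx⟩ := (hM (j + n)).surjOn hu
      rw [pow_add, Module.End.mul_apply] at hx
      exact ⟨_, hx⟩
    · rw [hP.gt a (by omega) u hu]
      exact Submodule.zero_mem _
  · rw [map_add]
    exact Submodule.add_mem _ ha hb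

/-- **The trace on the kernel of `N ^ j`.** -/
theorem trace_ker_pow (hq : 2 ≤ q) (hK : Killed q S g Φ)
    (hN : N * Φ = (q : K) • (Φ * N)) (hM : MonodromyWeight q w Φ N) (j : ℕ) {P P' : ℚ[X]}
    (hP : IsProjTo q Φ (w + j - 1) P) (hP' : IsProjTo q Φ (w - j - 1) P') {c : K}
    (hA : N * A = c • (A * N)) (hAw : ∀ a, ∀ v ∈ wt q Φ a, A v ∈ wt q Φ a) :
    trOn A (LinearMap.ker (N ^ j)) =
      LinearMap.trace K V (A * ev Φ P) - c ^ j * LinearMap.trace K V (A * ev Φ P') := by
  obtain ⟨s, hs⟩ := exists_section (range_pow hq hK hM j hP')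
  set E := ev Φ P with hE
  set E' := ev Φ P' with hE'
  have hEN : E' * N ^ j = N ^ j * E := by
    refine proj_pow hq hK hN j hP ?_
    have e : w + (j : ℤ) - 1 - 2 * j = w - j - 1 := by ring
    rw [e]
    exact hP'
  have hE'2 : E' * E' = E' := by
    refine hK.ext hq fun a v hv => ?_
    rw [Module.End.mul_apply]
    by_cases ha : a ≤ w - j - 1
    · rw [hE', hP'.le a ha v hv, hP'.le a ha v hv]
    · rw [hE', hP'.gt a (by omega) v hv, map_zero]
  have hAE : E * A = A * E := by
    refine hK.ext hq fun a v hv => ?_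
    rw [Module.End.mul_apply, Module.End.mul_apply]
    by_cases ha : a ≤ w + j - 1
    · rw [hE, hP.le a ha v hv, hP.le a ha _ (hAw a v hv)]
    · rw [hE, hP.gt a (by omega) v hv, hP.gt a (by omega) _ (hAw a v hv), map_zero]
  have hNjA : N ^ j * A = (c ^ j) • (A * N ^ j) := by
    clear hEN hs hP hP' hE hE' hE'2 hAE
    induction j with
    | zero => simp
    | succ j ih =>
      rw [pow_succ', mul_assoc, ih, mul_smul_comm, ← mul_assoc, hA, smul_mul_assoc, smul_smul,
        mul_assoc, ← pow_succ]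
  have hst := stable_of_comm' hNjA
  set π := E - s * (N ^ j * E) with hπ
  have hNπ : N ^ j * π = 0 := by
    rw [hπ, mul_sub, ← mul_assoc, hs, ← hEN, ← mul_assoc, hE'2, sub_self]
  have h1 : ∀ v, π v ∈ LinearMap.ker (N ^ j) := by
    intro v
    rw [LinearMap.mem_ker, ← Module.End.mul_apply, hNπ, LinearMap.zero_apply]
  have h2 : ∀ v ∈ LinearMap.ker (N ^ j), π v = v := by
    intro v hv
    have hv' : (N ^ j) v = 0 := hv
    have h3 : (N ^ j * E) v = 0 := by
      rw [← hEN, Module.End.mul_apply, hv', map_zero]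
    rw [hπ, LinearMap.sub_apply, Module.End.mul_apply, h3, map_zero, sub_zero]
    exact ker_pow hq hK hN hM j hP hv'
  have h4 : trOn A (LinearMap.ker (N ^ j)) = LinearMap.trace K V (A * π) := by
    have h5 : ∀ v, (A * π) v ∈ LinearMap.ker (N ^ j) := fun v => hst _ (h1 v)
    have h6 := LinearMap.trace_restrict_eq_of_forall_mem (LinearMap.ker (N ^ j)) (A * π) h5
    rw [← h6, trOn_eq hst]
    congr 1
    ext v
    show A (v : V) = A (π v)
    rw [h2 v v.2]
  rw [h4, hπ, mul_sub, map_sub]
  congr 1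
  calc LinearMap.trace K V (A * (s * (N ^ j * E)))
      = LinearMap.trace K V ((N ^ j * E) * (A * s)) := by
        rw [← mul_assoc, LinearMap.trace_mul_comm]
    _ = LinearMap.trace K V ((N ^ j * A) * (E * s)) := by
        rw [mul_assoc, ← mul_assoc E A s, hAE]; simp only [mul_assoc]
    _ = c ^ j * LinearMap.trace K V (A * (E' * (N ^ j * s))) := by
        rw [hNjA, smul_mul_assoc, map_smul, smul_eq_mul, mul_assoc A, ← mul_assoc (N ^ j) E s,
          ← hEN, mul_assoc E']
    _ = c ^ j * LinearMap.trace K V (A * E') := by rw [hs, hE'2]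

end lin

end Pool.Agent.Q219.WD
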