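import Pool.Agent.Q219.WD.Ext

/-!
# Uniqueness of the attached Weil-Deligne representation; functions on `G / H`
-/

set_option autoImplicit false
set_option linter.unusedSectionVars false

open Polynomial

namespace Pool.Agent.Q219.WD

open Pool.Agent.Q187.IL
open Pool.Agent.Q226.IL (expN Quo coeff_zero_of_nat expN_sum expN_isUnit)

section single

variable {G K V : Type} [Group G] [TopologicalSpace G] [Field K] [CharZero K] [AddCommGroup V]
  [Module K V] [FiniteDimensional K V] {p : ℕ} {I J : Subgroup G} {F : G} {t : G → K}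
  {ρ r r' : Representation K G V} {N N' : Module.End K V}

lemma eq_of_expN {N N' : Module.End K V} {τ : K} (hτ : τ ≠ 0)
    (h : ∀ n : ℕ, expN N ((n : K) * τ) = expN N' ((n : K) * τ)) : N = N' := by
  rcases Nat.eq_zero_or_pos (Module.finrank K V) with h0 | h0
  · have := Module.finrank_zero_iff.1 h0
    ext v
    exact Subsingleton.elim _ _
  have key := coeff_zero_of_nat (K := K)
    (fun k => ((k.factorial : K)⁻¹ * τ ^ k) • (N ^ k - N' ^ k))
    (Module.finrank K V + 1) (fun n => ?_) 1 (by omega)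
  · simp only [Nat.factorial_one, Nat.cast_one, inv_one, pow_one, one_mul, smul_eq_zero] at key
    exact sub_eq_zero.1 (key.resolve_left hτ)
  · have h1 := sub_eq_zero.2 (h n)
    rw [expN_sum, expN_sum, ← Finset.sum_sub_distrib] at h1
    rw [← h1]
    refine Finset.sum_congr rfl fun k _ => ?_
    rw [smul_sub, smul_sub]

lemma IsTame.pow (ht : IsTame I t) {g : G} (hg : g ∈ I) (n : ℕ) : t (g ^ n) = n * t g := by
  induction n with
  | zero => rw [pow_zero, ht.one, Nat.cast_zero, zero_mul]
  | succ n ih =>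
    rw [pow_succ, ht.add _ (I.pow_mem hg n) _ hg, ih]
    push_cast
    ring

/-- The attached pair is unique. -/
theorem Attached.unique (hG : IsWeilGroup I F) (ht : IsTame I t) (h : Attached p I F t ρ r N)
    (h' : Attached p I F t ρ r' N') : r = r' ∧ N = N' := by
  obtain ⟨g, hg, htg⟩ := ht.ne
  obtain ⟨m, hm, -, hmJ⟩ := Subgroup.exists_pow_mem_of_relIndex_ne_zero
    (Subgroup.relIndex_inf_ne_zero h.finite h'.finite) hg
  have hmI : g ^ m ∈ I := I.pow_mem hg m
  have hτ : t (g ^ m) ≠ 0 := by
    rw [ht.pow hg]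
    exact mul_ne_zero (by exact_mod_cast hm.ne') htg
  have h1 : ∀ n : ℕ, ρ ((g ^ m) ^ n) = expN N ((n : K) * t (g ^ m)) := by
    intro n
    have h2 := h.exp 0 _ (I.pow_mem hmI n)
    rwa [zpow_zero, one_mul, ht.pow hmI, map_pow r, MonoidHom.mem_ker.1 hmJ.1.1, one_pow,
      one_mul] at h2
  have h1' : ∀ n : ℕ, ρ ((g ^ m) ^ n) = expN N' ((n : K) * t (g ^ m)) := by
    intro n
    have h2 := h'.exp 0 _ (I.pow_mem hmI n)
    rwa [zpow_zero, one_mul, ht.pow hmI, map_pow r', MonoidHom.mem_ker.1 hmJ.1.2, one_pow,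
      one_mul] at h2
  have hN : N = N' := eq_of_expN hτ fun n => by rw [← h1, h1']
  refine ⟨?_, hN⟩
  subst hN
  apply MonoidHom.ext
  intro x
  obtain ⟨n, y, hy, rfl⟩ := hG.gen x
  exact (expN_isUnit h.nilpotent (t y)).mul_right_cancel (by rw [← h.exp n y hy, h'.exp n y hy])

lemma compLeft_pow' {X : Type} (N : Module.End K V) (k : ℕ) :
    ((N.compLeft X : Module.End K (X → V)) ^ k) = ((N ^ k).compLeft X : Module.End K (X → V)) := by
  apply LinearMap.ext
  intro f
  funext x
  rw [compLeft_pow]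
  rfl

lemma isOpen_core [IsTopologicalGroup G] {H : Subgroup G} (hH : IsOpen (H : Set G))
    [H.FiniteIndex] : IsOpen (H.normalCore : Set G) := by
  have := Subgroup.normalCore_isClosed H (Subgroup.isClosed_of_isOpen H hH)
  exact Subgroup.isOpen_of_isClosed_of_finiteIndex _ this

/-- A representation induced from a subgroup of finite index. -/
theorem attached_induced [IsTopologicalGroup G] {V' : Type} [AddCommGroup V'] [Module K V']
    [FiniteDimensional K V'] {H : Subgroup G} {ρ' : Representation K G V'}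
    (h : Attached p I F t ρ r N) (hI : IsInduced H ρ' ρ) (hH : IsOpen (H : Set G))
    (hf : H.FiniteIndex) (hst : ∀ (x : G) (j : ℕ), ∀ v ∈ LinearMap.ker (N ^ j),
      r x v ∈ LinearMap.ker (N ^ j)) :
    ∃ (r' : Representation K G V') (N' : Module.End K V'), Attached p I F t ρ' r' N' ∧
      ∀ (x : G) (j : ℕ), trOn (r' x) (LinearMap.ker (N' ^ j)) =
        (Nat.card {y : G ⧸ H // x⁻¹ • y = y} : K) * trOn (r x) (LinearMap.ker (N ^ j)) := by
  classical
  obtain ⟨e, he⟩ := hI
  have hfin : Finite (G ⧸ H) := H.finite_quotient_of_finiteIndex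
  have : Fintype (G ⧸ H) := Fintype.ofFinite _
  have h1 : Attached p I F t (permRep H ρ) (permRep H r) (N.compLeft (G ⧸ H)) := by
    refine attached_permRep (J := MonoidHom.ker r ⊓ H.normalCore) h inf_le_left
      (inf_le_right.trans H.normalCore_le) (h.isOpen.inter (isOpen_core hH)) ?_
    refine Subgroup.relIndex_inf_ne_zero h.finite fun h0 => ?_
    exact Subgroup.FiniteIndex.index_ne_zero (Subgroup.index_eq_zero_of_relIndex_eq_zero h0)
  have h2 := h1.transport (ρ' := ρ') e (fun g v => by
    funext y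
    rw [he]
    rfl)
  refine ⟨_, _, h2, fun x j => ?_⟩
  have hst' : ∀ v ∈ LinearMap.ker ((N.compLeft (G ⧸ H) : Module.End K (G ⧸ H → V)) ^ j),
      permRep H r x v ∈ LinearMap.ker ((N.compLeft (G ⧸ H) : Module.End K (G ⧸ H → V)) ^ j) := by
    intro f hf
    rw [compLeft_pow', LinearMap.mem_ker] at hf ⊢
    funext y
    exact hst x j _ (congrFun hf (x⁻¹ • y))
  rw [cRep_apply, trOn_transport e j hst', compLeft_pow', trOn_permRep (hst x j),
    Nat.card_eq_fintype_card, Fintype.card_subtype]

end single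

end Pool.Agent.Q219.WD
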