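import Pool.Agent.Q219.WD.Two

/-!
# Local Euler factors and Weil-Deligne representations: the theorems
-/

set_option autoImplicit false
set_option linter.unusedSectionVars false

open Polynomial

namespace Pool.Agent.Q219.WD

open Pool.Agent.Q187.IL
open Pool.Agent.Q226.IL (expN Quo Mixed MonodromyWeight)

section general

variable {D : Data} [TopologicalSpace D.G] [IsTopologicalGroup D.G] {p : ℕ}
  {t : ∀ l, D.G → D.K l}

/-- From the elements of positive degree to all elements of the Weil group. -/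
theorem traces_extend (hp : p ≠ 0) (hG : IsWeilGroup D.I D.F) {M : D.Mot} {i : ℤ}
    {r : ∀ l, Representation (D.K l) D.G (D.V l M i)}
    {N : ∀ l, Module.End (D.K l) (D.V l M i)}
    (h : ∀ l, Attached p D.I D.F (t l) (D.rho l M i) (r l) (N l)) (j : ℕ)
    (hpos : ∀ (n : ℕ), ∀ g ∈ D.I, ∃ q : ℚ, ∀ l,
      trOn (r l (D.F ^ (n + 1) * g)) (LinearMap.ker (N l ^ j)) = algebraMap ℚ (D.K l) q)
    (x : D.G) :
    ∃ q : ℚ, ∀ l, trOn (r l x) (LinearMap.ker (N l ^ j)) = algebraMap ℚ (D.K l) q := by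
  -- the polynomial of Frobenius
  have hst : ∀ l (x : D.G), ∀ v ∈ LinearMap.ker (N l ^ j), r l x v ∈ LinearMap.ker (N l ^ j) :=
    fun l x => (h l).stable_all hp hG x j
  obtain ⟨P, hP⟩ : ∃ P : ℚ[X], ∀ l, HasPolyOn (r l D.F) (LinearMap.ker (N l ^ j)) P := by
    refine exists_poly (fun l => hst l D.F) fun m => ?_
    obtain ⟨q, hq⟩ := hpos m 1 D.I.one_mem
    refine ⟨q, fun l => ?_⟩
    rw [← map_pow, ← hq l, mul_one]
  have hP' : ∀ l, revPoly ((r l D.F).restrict (hst l D.F)) = P.map (algebraMap ℚ (D.K l)) := by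
    intro l
    obtain ⟨f, hf, hf'⟩ := hP l
    rw [← hf']
    congr 1
    ext v
    rw [hf]
    rfl
  have hinj : ∀ l, Function.Injective ((r l D.F).restrict (hst l D.F)) := fun l v w hvw =>
    Subtype.ext (r_injective (r l) D.F (congrArg Subtype.val hvw))
  have hrec : ∀ l (s : ℤ), ∑ k ∈ Finset.range (P.natDegree + 1),
      algebraMap ℚ (D.K l) (P.coeff (P.natDegree - k)) *
        trOn (r l (x * D.F ^ (s + k))) (LinearMap.ker (N l ^ j)) = 0 := by
    intro l s
    have h1 := recurrence ((r l (x * D.F ^ s)).restrict (hst l _)) (hinj l) (hP' l)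
    rw [← h1]
    refine Finset.sum_congr rfl fun k _ => ?_
    congr 1
    rw [trOn_eq (hst l _)]
    congr 1
    ext v
    rw [Module.End.mul_apply]
    show r l (x * D.F ^ (s + k)) v =
      r l (x * D.F ^ s) ((((r l D.F).restrict (hst l D.F)) ^ k) v : _)
    rw [restrict_pow', ← map_pow, ← Module.End.mul_apply, ← map_mul, mul_assoc, ← zpow_natCast,
      ← zpow_add]
  refine exists_common _ fun l₀ l => ?_
  have hP0 : P ≠ 0 := by
    intro h0
    have h1 := hP' l₀
    rw [h0, Polynomial.map_zero] at h1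
    have h2 := coeff_zero ((r l₀ D.F).restrict (hst l₀ D.F))
    rw [h1, Polynomial.coeff_zero] at h2
    exact zero_ne_one h2
  obtain ⟨a, ha⟩ := hG.mk_eq x
  have h3 := backward hP0 (fun s => trOn (r l₀ (x * D.F ^ s)) (LinearMap.ker (N l₀ ^ j)))
    (fun s => trOn (r l (x * D.F ^ s)) (LinearMap.ker (N l ^ j))) (hrec l₀) (hrec l) (1 - a)
    (fun s hs => by
      obtain ⟨n, hn⟩ : ∃ n : ℕ, a + s = ((n + 1 : ℕ) : ℤ) := ⟨(a + s - 1).toNat, by omega⟩
      have h4 : (D.F ^ (n + 1))⁻¹ * (x * D.F ^ s) ∈ D.I := by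
        rw [← QuotientGroup.eq_one_iff, QuotientGroup.mk_mul, QuotientGroup.mk_inv,
          QuotientGroup.mk_mul, QuotientGroup.mk_pow, QuotientGroup.mk_zpow, ha, ← zpow_add, hn,
          zpow_natCast, inv_mul_cancel]
      obtain ⟨q, hq⟩ := hpos n _ h4
      rw [mul_inv_cancel_left] at hq
      exact ⟨q, hq l₀, hq l⟩) 0
  simpa using h3

/-- Independence of `ℓ` of the Euler factors of all twists implies independence of `ℓ` of the
Weil-Deligne representations. -/
theorem wd_of_independent (hp : p ≠ 0) (hG : IsWeilGroup D.I D.F) (ht : ∀ l, IsTame D.I (t l))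
    {E : Curve D} (hE : IsSplitMult E p t) {C : D.Mot → ℤ → Prop} (hC : IsClosedClass D E C)
    (hQ : ∀ M i, C M i → D.Independent M i) {M : D.Mot} {i : ℤ} (hM : C M i) :
    WDIndependent D p t M i := fun r N h x j => traces_extend hp hG h j
    (fun n g hg => traces_all hp hG ht hE hC hQ j M i hM r N h n g hg) x

/-- The tensor product with `h^1(E)`. -/
theorem wd_tensor (hp : p ≠ 0) (hG : IsWeilGroup D.I D.F) (ht : ∀ l, IsTame D.I (t l))
    (hM : HasMonodromy D p t) {E : Curve D} (hE : IsSplitMult E p t) {M M' : D.Mot} {i : ℤ}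
    (hM' : ∀ l, IsTensorOf (D.rho l M' (i + 1)) (D.rho l M i) (E.s l))
    (hW : WDIndependent D p t M i) : WDIndependent D p t M' (i + 1) := by
  choose r N h using fun l => hM l M i
  intro r' N' h' x j
  refine traces_extend hp hG h' j (fun n g hg => ?_) x
  match j with
  | 0 => exact ⟨0, fun l => by rw [trOn_ker_zero, map_zero]⟩
  | k + 1 =>
    obtain ⟨q1, hq1⟩ := hW r N h (D.F ^ (n + 1) * g) (k + 2)
    obtain ⟨q2, hq2⟩ := hW r N h (D.F ^ (n + 1) * g) k
    refine ⟨q1 + (p : ℚ) ^ (n + 1) * q2, fun l => ?_⟩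
    obtain ⟨b, hb0, hb1, hb⟩ := hE l
    obtain ⟨r'', N'', h'', hf⟩ := tate_step hp hG (h l) (hM' l) b hb0 hb1 hb
    obtain ⟨e1, e2⟩ := Attached.unique hG (ht l) (h' l) h''
    rw [e1, e2, hf (n + 1) g hg k, hq1 l, hq2 l, map_add, map_mul, map_pow, map_natCast]

/-- The tensor product with `h(Spec F)`. -/
theorem wd_artin (hp : p ≠ 0) (hG : IsWeilGroup D.I D.F) (ht : ∀ l, IsTame D.I (t l))
    (hM : HasMonodromy D p t) {H : Subgroup D.G} (hH : IsOpen (H : Set D.G)) (hf : H.FiniteIndex)
    {M M' : D.Mot} {i : ℤ} (hM' : ∀ l, IsInduced H (D.rho l M' i) (D.rho l M i))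
    (hW : WDIndependent D p t M i) : WDIndependent D p t M' i := by
  choose r N h using fun l => hM l M i
  intro r' N' h' x j
  obtain ⟨q, hq⟩ := hW r N h x j
  refine ⟨(Nat.card {y : D.G ⧸ H // x⁻¹ • y = y} : ℚ) * q, fun l => ?_⟩
  obtain ⟨r'', N'', h'', hf⟩ := attached_induced (h l) (hM' l) hH hf
    fun x j => (h l).stable_all hp hG x j
  obtain ⟨e1, e2⟩ := Attached.unique hG (ht l) (h' l) h''
  rw [e1, e2, hf, hq l, map_mul, map_natCast]

/-- The converse. -/
theorem independent_of_wd (hG : IsWeilGroup D.I D.F) (ht : ∀ l, IsTame D.I (t l))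
    (hM : HasMonodromy D p t) {M : D.Mot} {i : ℤ} (hW : WDIndependent D p t M i) :
    D.Independent M i := by
  choose r N h using fun l => hM l M i
  rw [independent_iff]
  have key : ∀ n : ℕ, ∃ q : ℚ, ∀ l, LinearMap.trace (D.K l) _
      (frob D.I (D.rho l M i) (D.F ^ (n + 1))) = algebraMap ℚ (D.K l) q := by
    intro n
    refine exists_common _ fun l₀ l => ?_
    obtain ⟨J, hJn, hJI, hJ₀, hJ, hJo, hJf⟩ := common_subgroup hG (h l₀) (h l)
    have hfin : Fintype (Quo D.I J) := Subgroup.fintypeOfIndexNeZero hJf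
    have h1 : ∀ x : Quo D.I J, ∃ q : ℚ, ∀ l, trOn (r l (D.F ^ (n + 1) * ((x.out : D.I) : D.G)))
        (LinearMap.ker (N l)) = algebraMap ℚ (D.K l) q := by
      intro x
      obtain ⟨q, hq⟩ := hW r N h (D.F ^ (n + 1) * ((x.out : D.I) : D.G)) 1
      refine ⟨q, fun l => ?_⟩
      have := hq l
      rwa [pow_one] at this
    choose q hq using h1
    refine ⟨(Fintype.card (Quo D.I J) : ℚ)⁻¹ * ∑ x : Quo D.I J, q x, ?_, ?_⟩
    · rw [trace_frob (h l₀) (ht l₀) hJ₀ (n + 1), map_mul, map_inv₀, map_natCast, map_sum]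
      congr 1
      exact Finset.sum_congr rfl fun x _ => hq x l₀
    · rw [trace_frob (h l) (ht l) hJ (n + 1), map_mul, map_inv₀, map_natCast, map_sum]
      congr 1
      exact Finset.sum_congr rfl fun x _ => hq x l
  choose q hq using key
  exact ⟨q, fun l n => hq n l⟩

end general

section pair

/-- the data with the primes `f b` only -/
abbrev sub (D : Data) {Λ : Type} (f : Λ → D.Pr) : Data where
  Mot := D.Mot
  Pr := Λ
  K := fun b => D.K (f b)
  G := D.G
  I := D.I
  F := D.F
  V := fun b M i => D.V (f b) M i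
  rho := fun b M i => D.rho (f b) M i

/-- the curve for the primes `f b` only -/
abbrev subCurve {D : Data} (E : Curve D) {Λ : Type} (f : Λ → D.Pr) : Curve (sub D f) where
  W := fun b => E.W (f b)
  acg := fun b => E.acg (f b)
  mod := fun b => E.mod (f b)
  fin := fun b => E.fin (f b)
  s := fun b => E.s (f b)

variable {D : Data} [TopologicalSpace D.G] [IsTopologicalGroup D.G] {p : ℕ}
  {t : ∀ l, D.G → D.K l} {E : Curve D} {Λ : Type} (f : Λ → D.Pr)

lemma isClosedClass (h : Facts D p t E) (M : D.Mot) (i : ℤ) :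
    IsClosedClass (sub D f) (subCurve E f) (@Twist D _ E M i) where
  artin H hH hf M₁ i₁ h1 := by
    obtain ⟨M₂, h2⟩ := h.artin H hH hf M₁
    exact ⟨M₂, h1.artin H hH hf fun l => h2 l i₁, fun b => h2 (f b) i₁⟩
  tensor M₁ i₁ h1 := by
    obtain ⟨M₂, h2⟩ := h.tensor M₁
    exact ⟨M₂, h1.tensor fun l => h2 l i₁, fun b => h2 (f b) i₁⟩

/-- The Euler factors of all twists determine the Weil-Deligne representations. -/
theorem sub_wd (hp : p ≠ 0) (h : Facts D p t E) {M : D.Mot} {i : ℤ}
    (hQ : ∀ M' i', Twist E M i M' i' → (sub D f).Independent M' i') :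
    WDIndependent (sub D f) p (fun b => t (f b)) M i :=
  wd_of_independent (D := sub D f) hp h.weil (fun b => h.tame (f b)) (E := subCurve E f)
    (fun b => h.split (f b)) (isClosedClass f h M i) hQ Twist.refl

theorem sub_twist (hp : p ≠ 0) (h : Facts D p t E) {M M' : D.Mot} {i i' : ℤ}
    (hMM : Twist E M i M' i') (hW : WDIndependent (sub D f) p (fun b => t (f b)) M i) :
    WDIndependent (sub D f) p (fun b => t (f b)) M' i' := by
  induction hMM with
  | refl => exact hW
  | tensor _ h1 ih =>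
    exact wd_tensor (D := sub D f) hp h.weil (fun b => h.tame (f b))
      (fun b M i => h.monodromy (f b) M i) (E := subCurve E f) (fun b => h.split (f b))
      (fun b => h1 (f b)) ih
  | artin H _ hH hf h1 ih =>
    exact wd_artin (D := sub D f) hp h.weil (fun b => h.tame (f b))
      (fun b M i => h.monodromy (f b) M i) hH hf (fun b => h1 (f b)) ih

/-- two primes -/
abbrev two (l l' : D.Pr) : Bool → D.Pr
  | false => l
  | true => l'

lemma sameFactor_iff (l l' : D.Pr) (M : D.Mot) (i : ℤ) :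
    SameFactor D l l' M i ↔ (sub D (two l l')).Independent M i := by
  constructor
  · rintro ⟨P, h1, h2⟩
    refine ⟨P, fun b => ?_⟩
    cases b
    · exact h1
    · exact h2
  · rintro ⟨P, h⟩
    exact ⟨P, h false, h true⟩

/-- **The Euler factors of the twists and the weight-monodromy conjecture for a second prime.** -/
theorem wm_of_factors (hp : p.Prime) (h : Facts D p t E) {M : D.Mot} {i w : ℤ} {l l' : D.Pr}
    (hl : WM D p t w l M i) (hQ : ∀ M' i', Twist E M i M' i' → SameFactor D l l' M' i') :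
    WM D p t w l' M i := by
  have hW := sub_wd (two l l') hp.ne_zero h fun M' i' h1 =>
    (sameFactor_iff l l' M' i').1 (hQ M' i' h1)
  obtain ⟨r, N, h1, hmix, hM⟩ := hl
  obtain ⟨r', N', h2⟩ := h.monodromy l' M i
  refine ⟨r', N', h2, ?_⟩
  have hW' := hW (fun b => match b with | false => r | true => r')
    (fun b => match b with | false => N | true => N')
    (fun b => match b with | false => h1 | true => h2)
  refine purity_transfer hp.two_le h1.frob h2.frob h1.nilpotent h2.nilpotent ?_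
    (fun j m => ?_) hmix hM
  · refine ⟨⟨r' D.F, r' D.F⁻¹, ?_, ?_⟩, rfl⟩
    · rw [← map_mul, mul_inv_cancel, map_one]
    · rw [← map_mul, inv_mul_cancel, map_one]
  · obtain ⟨q, hq⟩ := hW' (D.F ^ m) j
    refine ⟨q, ?_, ?_⟩
    · rw [← map_pow]
      exact hq false
    · rw [← map_pow]
      exact hq true

/-- **The weight-monodromy conjecture for two primes and the Euler factors of the twists.** -/
theorem factors_of_wm (hp : p.Prime) (h : Facts D p t E) {M : D.Mot} {i w : ℤ} {l l' : D.Pr}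
    (hl : WM D p t w l M i) (hl' : WM D p t w l' M i) (hT : SameTraces D l l' M i) {M' : D.Mot}
    {i' : ℤ} (hMM : Twist E M i M' i') : SameFactor D l l' M' i' := by
  obtain ⟨r, N, h1, hmix, hM⟩ := hl
  obtain ⟨r', N', h2, hmix', hM'⟩ := hl'
  rw [sameFactor_iff]
  refine independent_of_wd (D := sub D (two l l')) h.weil (t := fun b => t (two l l' b))
    (fun b => h.tame _) (fun b M i => h.monodromy _ M i)
    (sub_twist (two l l') hp.ne_zero h hMM ?_)
  intro r₂ N₂ h₂ x j
  have hf : Attached p D.I D.F (t l) (D.rho l M i) (r₂ false) (N₂ false) := h₂ false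
  have ht : Attached p D.I D.F (t l') (D.rho l' M i) (r₂ true) (N₂ true) := h₂ true
  obtain ⟨e1, e2⟩ := Attached.unique h.weil (h.tame l) hf h1
  obtain ⟨e1', e2'⟩ := Attached.unique h.weil (h.tame l') ht h2
  refine traces_extend (D := sub D (two l l')) hp.ne_zero h.weil h₂ j (fun n g hg => ?_) x
  obtain ⟨q, hq1, hq2⟩ := traces_of_pure hp.two_le (h.tame l) (h.tame l') h1 h2 hmix hM hM' hT j n hg
  refine ⟨q, fun b => ?_⟩
  cases b
  · rw [e1, e2]
    exact hq1
  · rw [e1', e2']
    exact hq2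

lemma independent_of_pairs {M : D.Mot} {i : ℤ} (h : ∀ l l', SameFactor D l l' M i) :
    D.Independent M i := by
  rcases isEmpty_or_nonempty D.Pr with he | ⟨⟨l₀⟩⟩
  · exact ⟨0, fun l => he.elim l⟩
  · obtain ⟨P, hP, -⟩ := h l₀ l₀
    refine ⟨P, fun l => ?_⟩
    obtain ⟨P', h1, h2⟩ := h l₀ l
    rw [hP] at h1
    rw [h2, Polynomial.map_injective _ (algebraMap ℚ (D.K l₀)).injective h1]

end pair

end Pool.Agent.Q219.WD
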